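import Pool.Agent.Helper99.SC.Topo

/-!
# Basic facts on walks in drawings
-/

set_option autoImplicit false

namespace Pool.Agent.Helper99.SC

open Relation

namespace Drawing

variable {V : Type} (T : Drawing V)

theorem smooth_rev {d e : T.Dart} : T.Smooth d e → T.Smooth (T.rev e) (T.rev d) := by
  rintro ⟨j, h1, h2, h3, h4⟩
  refine ⟨j, by rwa [T.rev_rev], h1, ?_, ?_⟩
  · rw [T.rev_rev]; exact h3.symm
  · rw [T.rev_rev]; exact h4.symm

theorem smooth_rev_iff {d e : T.Dart} : T.Smooth (T.rev e) (T.rev d) ↔ T.Smooth d e := by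
  constructor
  · intro h
    have := T.smooth_rev h
    rwa [T.rev_rev, T.rev_rev] at this
  · exact T.smooth_rev

theorem path_rev {d e : T.Dart} (h : ReflTransGen T.Smooth d e) :
    ReflTransGen T.Smooth (T.rev e) (T.rev d) := by
  induction h with
  | refl => exact ReflTransGen.refl
  | tail _ h2 ih => exact ReflTransGen.head (T.smooth_rev h2) ih

theorem from_rev {u : V} {d : T.Dart} : T.From u (T.rev d) ↔ T.To d u := by
  constructor
  · rintro ⟨d₀, h1, h2⟩
    refine ⟨T.rev d₀, ?_, by rwa [T.rev_rev]⟩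
    have := T.path_rev h2
    rwa [T.rev_rev] at this
  · rintro ⟨e, h1, h2⟩
    exact ⟨T.rev e, h2, T.path_rev h1⟩

theorem to_rev {u : V} {d : T.Dart} : T.To (T.rev d) u ↔ T.From u d := by
  rw [← T.from_rev, T.rev_rev]

theorem on_rev {u v : V} {d : T.Dart} : T.On u v (T.rev d) ↔ T.On v u d := by
  unfold On
  rw [T.from_rev, T.to_rev, and_comm]

theorem joins_of {u v : V} {d : T.Dart} (h1 : T.From u d) (h2 : T.To d v) : T.Joins u v := by
  obtain ⟨d₀, h3, h4⟩ := h1
  obtain ⟨e, h5, h6⟩ := h2
  exact ⟨d₀, e, h3, h4.trans h5, h6⟩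

theorem On.joins {T : Drawing V} {u v : V} {d : T.Dart} (h : T.On u v d) : T.Joins u v :=
  T.joins_of h.1 h.2

theorem From.trans {T : Drawing V} {u : V} {d e : T.Dart} (h : T.From u d)
    (h' : ReflTransGen T.Smooth d e) : T.From u e := by
  obtain ⟨d₀, h1, h2⟩ := h
  exact ⟨d₀, h1, h2.trans h'⟩

theorem To.trans {T : Drawing V} {u : V} {d e : T.Dart} (h : T.To e u)
    (h' : ReflTransGen T.Smooth d e) : T.To d u := by
  obtain ⟨d₀, h1, h2⟩ := h
  exact ⟨d₀, h'.trans h1, h2⟩

/-- in a chain the head reaches every member -/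
theorem chain_head {l : List T.Dart} (hl : l ≠ []) (h : l.IsChain T.Smooth) :
    ∀ d ∈ l, ReflTransGen T.Smooth (l.head hl) d := by
  induction l with
  | nil => exact absurd rfl hl
  | cons a l ih =>
    intro d hd
    rcases List.mem_cons.1 hd with rfl | hd
    · exact ReflTransGen.refl
    · cases l with
      | nil => simp at hd
      | cons b l =>
        rw [List.isChain_cons_cons] at h
        exact ReflTransGen.head h.1 (ih (by simp) h.2 d hd)

/-- in a chain every member reaches the last one -/
theorem chain_last {l : List T.Dart} (hl : l ≠ []) (h : l.IsChain T.Smooth) :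
    ∀ d ∈ l, ReflTransGen T.Smooth d (l.getLast hl) := by
  induction l with
  | nil => exact absurd rfl hl
  | cons a l ih =>
    intro d hd
    cases l with
    | nil =>
      rw [List.mem_singleton] at hd
      subst hd
      exact ReflTransGen.refl
    | cons b l =>
      rw [List.isChain_cons_cons] at h
      rw [List.getLast_cons (by simp)]
      rcases List.mem_cons.1 hd with rfl | hd
      · exact ReflTransGen.head h.1 (ih (by simp) h.2 b (by simp))
      · exact ih (by simp) h.2 d hd

theorem exists_chain {d e : T.Dart} (h : ReflTransGen T.Smooth d e) :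
    ∃ l : List T.Dart, ∃ hl : l ≠ [], l.IsChain T.Smooth ∧ l.head hl = d ∧ l.getLast hl = e := by
  induction h using ReflTransGen.head_induction_on with
  | refl => exact ⟨[e], by simp, by simp, rfl, rfl⟩
  | @head a b h1 _ ih =>
    obtain ⟨l, hl, h3, h4, h5⟩ := ih
    refine ⟨a :: l, by simp, ?_, rfl, by rw [List.getLast_cons hl]; exact h5⟩
    cases l with
    | nil => simp
    | cons x l =>
      rw [List.isChain_cons_cons]
      simp only [List.head_cons] at h4
      subst h4
      exact ⟨h1, h3⟩

theorem IsWalk.on {T : Drawing V} {u v : V} {l : List T.Dart} (h : T.IsWalk u v l) {d : T.Dart}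
    (hd : d ∈ l) : T.On u v d := by
  obtain ⟨hl, h1, h2, h3⟩ := h
  exact ⟨⟨_, h1, T.chain_head hl h3 d hd⟩, ⟨_, T.chain_last hl h3 d hd, h2⟩⟩

theorem IsWalk.joins {T : Drawing V} {u v : V} {l : List T.Dart} (h : T.IsWalk u v l) :
    T.Joins u v := by
  obtain ⟨hl, _⟩ := id h
  exact (h.on (List.head_mem hl)).joins

theorem On.exists_walk {T : Drawing V} {u v : V} {d : T.Dart} (h : T.On u v d) :
    ∃ l, T.IsWalk u v l ∧ d ∈ l := by
  obtain ⟨⟨d₀, h1, h2⟩, ⟨e, h3, h4⟩⟩ := h
  obtain ⟨l, hl, a1, a2, a3⟩ := T.exists_chain h2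
  obtain ⟨l', hl', b1, b2, b3⟩ := T.exists_chain h3
  cases l' with
  | nil => exact absurd rfl hl'
  | cons x l' =>
    simp only [List.head_cons] at b2
    subst b2
    refine ⟨l ++ l', ⟨by simp [hl], ?_, ?_, ?_⟩, ?_⟩
    · rw [List.head_append_of_ne_nil hl, a2]; exact h1
    · have : (l ++ l').getLast (by simp [hl]) = (x :: l').getLast hl' := by
        cases l' with
        | nil => simp [a3]
        | cons y l' => simp
      rw [this, b3]; exact h4
    · rw [List.isChain_append]
      refine ⟨a1, ?_, ?_⟩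
      · cases l' with
        | nil => simp
        | cons y l' => rw [List.isChain_cons_cons] at b1; exact b1.2
      · intro y hy z hz
        rw [List.getLast?_eq_getLast_of_ne_nil hl, Option.mem_some_iff] at hy
        subst hy
        rw [a3]
        cases l' with
        | nil => simp at hz
        | cons w l' =>
          rw [List.isChain_cons_cons] at b1
          simp only [List.head?_cons, Option.mem_some_iff] at hz
          subst hz
          exact b1.1
    · rw [← a3]; exact List.mem_append_left _ (List.getLast_mem hl)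

theorem Joins.exists_walk {T : Drawing V} {u v : V} (h : T.Joins u v) : ∃ l, T.IsWalk u v l := by
  obtain ⟨d, e, h1, h2, h3⟩ := h
  obtain ⟨l, hl, a1, a2, a3⟩ := T.exists_chain h2
  exact ⟨l, hl, by rw [a2]; exact h1, by rw [a3]; exact h3, a1⟩

theorem IsWalk.reverse {T : Drawing V} {u v : V} {l : List T.Dart} (h : T.IsWalk u v l) :
    T.IsWalk v u (l.reverse.map T.rev) := by
  obtain ⟨hl, h1, h2, h3⟩ := h
  refine ⟨by simpa using hl, ?_, ?_, ?_⟩
  · rw [List.head_map, List.head_reverse]; exact h2
  · rw [List.getLast_map, List.getLast_reverse, T.rev_rev]; exact h1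
  · rw [List.isChain_map, List.isChain_reverse]
    exact h3.imp fun a b h => T.smooth_rev h

theorem mem_reverse_rev {l : List T.Dart} {d : T.Dart} :
    d ∈ l.reverse.map T.rev ↔ T.rev d ∈ l := by
  rw [List.mem_map]
  constructor
  · rintro ⟨e, h1, rfl⟩
    rw [T.rev_rev]
    exact List.mem_reverse.1 h1
  · intro h
    exact ⟨T.rev d, List.mem_reverse.2 h, T.rev_rev d⟩

theorem cnt_rev (l : List T.Dart) (d : T.Dart) : T.cnt l (T.rev d) = T.cnt l d := by
  unfold cnt
  rw [T.rev_rev, add_comm]

theorem cnt_reverse (l : List T.Dart) (d : T.Dart) : T.cnt (l.reverse.map T.rev) d = T.cnt l d := by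
  classical
  have key : ∀ e : T.Dart, (l.reverse.map T.rev).count e = l.count (T.rev e) := by
    intro e
    rw [List.map_reverse, List.count_reverse]
    conv_lhs => rw [← T.rev_rev e]
    exact List.count_map_of_injective l T.rev T.rev.injective (T.rev e)
  unfold cnt
  rw [show (List.count d (List.map (⇑T.rev) l.reverse)) = l.count (T.rev d) by convert key d,
    show (List.count (T.rev d) (List.map (⇑T.rev) l.reverse)) = l.count d by
      rw [show l.count d = l.count (T.rev (T.rev d)) by rw [T.rev_rev]]; convert key (T.rev d)]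
  rw [add_comm]

theorem mem_of_cnt {l : List T.Dart} {d : T.Dart} (h : T.cnt l d ≠ 0) : d ∈ l ∨ T.rev d ∈ l := by
  classical
  by_contra hc
  push Not at hc
  apply h
  unfold cnt
  rw [List.count_eq_zero_of_not_mem hc.1, List.count_eq_zero_of_not_mem hc.2]
  simp

/-- consecutive darts of a walk meeting at `j` use the stem of `j` -/
theorem Smooth.stem {T : Drawing V} {d e : T.Dart} (h : T.Smooth d e) {j : T.J}
    (hj : T.base e = Sum.inr j) : T.rev d = T.stem j ∨ e = T.stem j := by
  obtain ⟨j', h1, h2, _, h4⟩ := h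
  rw [hj] at h2
  rw [Sum.inr.inj h2]
  exact h4

theorem Smooth.base {T : Drawing V} {d e : T.Dart} (h : T.Smooth d e) :
    T.base (T.rev d) = T.base e := by
  obtain ⟨j', h1, h2, _, h4⟩ := h
  rw [h1, h2]

/-- a walk passing through the junction `j` uses its stem -/
theorem stem_of_mem {l : List T.Dart} (hl : l ≠ []) (hc : l.IsChain T.Smooth) {j : T.J}
    (h0 : T.base (l.head hl) ≠ Sum.inr j) (h1 : T.base (T.rev (l.getLast hl)) ≠ Sum.inr j)
    {d : T.Dart} (hd : d ∈ l) (hj : T.base d = Sum.inr j ∨ T.base (T.rev d) = Sum.inr j) :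
    T.stem j ∈ l ∨ T.rev (T.stem j) ∈ l := by
  obtain ⟨l₁, l₂, rfl⟩ := List.append_of_mem hd
  rw [List.isChain_append] at hc
  obtain ⟨c1, c2, c3⟩ := hc
  rcases hj with hj | hj
  · -- the dart before `d`
    rcases List.eq_nil_or_concat l₁ with rfl | ⟨l₁', e, rfl⟩
    · simp at h0; exact absurd hj h0
    · have hs : T.Smooth e d := c3 e (by simp) d (by simp)
      rcases hs.stem hj with h | h
      · right
        rw [← h, T.rev_rev]
        simp
      · left
        rw [← h]
        simp
  · cases l₂ with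
    | nil => simp at h1; exact absurd hj h1
    | cons e l₂ =>
      rw [List.isChain_cons_cons] at c2
      have hs := c2.1
      have hje : T.base e = Sum.inr j := by rw [← hs.base]; exact hj
      rcases hs.stem hje with h | h
      · right
        rw [← h, T.rev_rev]
        simp
      · left
        rw [← h]
        simp

theorem IsWalk.stem_of_mem {T : Drawing V} {u v : V} {l : List T.Dart} (h : T.IsWalk u v l)
    {j : T.J} {d : T.Dart} (hd : d ∈ l)
    (hj : T.base d = Sum.inr j ∨ T.base (T.rev d) = Sum.inr j) :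
    T.stem j ∈ l ∨ T.rev (T.stem j) ∈ l := by
  obtain ⟨hl, h1, h2, h3⟩ := h
  exact T.stem_of_mem hl h3 (by rw [h1]; simp) (by rw [h2]; simp) hd hj

/-- a walk whose chain is nonzero at a dart based at the junction `j` uses the stem of `j` -/
theorem IsWalk.stem_of_cnt {T : Drawing V} {u v : V} {l : List T.Dart} (h : T.IsWalk u v l)
    {j : T.J} {d : T.Dart} (hd : T.cnt l d ≠ 0) (hj : T.base d = Sum.inr j) :
    T.stem j ∈ l ∨ T.rev (T.stem j) ∈ l := by
  rcases T.mem_of_cnt hd with h1 | h1
  · exact h.stem_of_mem h1 (Or.inl hj)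
  · exact h.stem_of_mem h1 (Or.inr (by rwa [T.rev_rev]))

/-- darts of a walk at a vertex are at its ends -/
theorem IsWalk.vertex_of_cnt {T : Drawing V} {u v : V} {l : List T.Dart} (h : T.IsWalk u v l)
    {x : V} {d : T.Dart} (hd : T.cnt l d ≠ 0) (hx : T.base d = Sum.inl x) : x = u ∨ x = v := by
  obtain ⟨hl, h1, h2, h3⟩ := h
  rcases T.mem_of_cnt hd with hm | hm
  · obtain ⟨l₁, l₂, rfl⟩ := List.append_of_mem hm
    rcases List.eq_nil_or_concat l₁ with rfl | ⟨l₁', e, rfl⟩
    · left
      simp at h1
      rw [hx] at h1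
      exact Sum.inl.inj h1
    · rw [List.isChain_append] at h3
      obtain ⟨j, _, a2, _⟩ := h3.2.2 e (by simp) d (by simp)
      rw [hx] at a2
      exact absurd a2 (by simp)
  · obtain ⟨l₁, l₂, rfl⟩ := List.append_of_mem hm
    cases l₂ with
    | nil =>
      right
      simp at h2
      rw [T.rev_rev, hx] at h2
      exact Sum.inl.inj h2
    | cons e l₂ =>
      rw [List.isChain_append, List.isChain_cons_cons] at h3
      obtain ⟨j, a1, _⟩ := h3.2.1.1
      rw [T.rev_rev, hx] at a1
      exact absurd a1 (by simp)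

/-- the second form of `share` -/
theorem Ring.share' {T : Drawing V} {n : ℕ} {c : ℕ → V} (h : T.Ring n c) (k : ℕ) {x y : V}
    {d : T.Dart} (hxy : x ≠ y) (h1 : T.On (c (k + 1)) (c k) d) (h2 : T.On x y d) :
    x = c (k + 1) ∨ y = c k ∨ (x = c k ∧ y = c (k + 1)) := by
  rcases h.share k y x (T.rev d) hxy.symm (T.on_rev.2 h1) (T.on_rev.2 h2) with h3 | h3 | h3
  · exact Or.inr (Or.inl h3)
  · exact Or.inl h3
  · exact Or.inr (Or.inr ⟨h3.2, h3.1⟩)

theorem CD_rev {c : ℕ → V} {d : T.Dart} : T.CD c (T.rev d) ↔ T.CD c d := by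
  unfold CD
  simp only [T.on_rev]
  constructor <;> rintro ⟨k, h | h⟩ <;> first | exact ⟨k, Or.inl h⟩ | exact ⟨k, Or.inr h⟩

/-- the members of a chain before and after a given one -/
theorem chain_split {l₁ l₂ : List T.Dart} {m : T.Dart} (h : (l₁ ++ m :: l₂).IsChain T.Smooth) :
    (∀ d ∈ l₁, ReflTransGen T.Smooth d m) ∧ ∀ d ∈ m :: l₂, ReflTransGen T.Smooth m d := by
  constructor
  · intro d hd
    have h' : (l₁ ++ [m]).IsChain T.Smooth := by
      rw [List.isChain_append] at h ⊢
      exact ⟨h.1, by simp, fun x hx y hy => h.2.2 x hx y (by simpa using hy)⟩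
    have := T.chain_last (l := l₁ ++ [m]) (by simp) h' d (by simp [hd])
    simpa using this
  · intro d hd
    rw [List.isChain_append] at h
    exact T.chain_head (by simp) h.2.1 d hd

/-- a potential is constant at a point where its chain vanishes -/
theorem pot_const {z χ : T.Dart → ZMod 2} (h : IsPot T.rot T.rev z χ) {p : V ⊕ T.J}
    (hz : ∀ d, T.base d = p → z d = 0) {d e : T.Dart} (hd : T.base d = p) (he : T.base e = p) :
    χ d = χ e := by
  have := T.finDart
  have hc : T.rot.SameCycle d e := (T.sameCycle d e).2 (by rw [hd, he])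
  obtain ⟨k, hk⟩ := hc.exists_nat_pow_eq
  have key : ∀ k : ℕ, χ ((T.rot ^ k) d) = χ d ∧ T.base ((T.rot ^ k) d) = p := by
    intro k
    induction k with
    | zero => simpa using hd
    | succ k ih =>
      have hb : T.base ((T.rot ^ (k + 1)) d) = p := by
        rw [← hd]
        refine ((T.sameCycle _ _).1 ?_).symm
        exact ⟨((k + 1 : ℕ) : ℤ), by rw [zpow_natCast]⟩
      refine ⟨?_, hb⟩
      rw [pow_succ', Equiv.Perm.mul_apply, h.2, ih.1]
      rw [pow_succ', Equiv.Perm.mul_apply] at hb
      rw [hz _ hb, add_zero]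
  rw [← hk, (key k).1]

end Drawing

end Pool.Agent.Helper99.SC
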