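import Mathlib

/-!
# Strongly confluent graphs: drawings with junctions, and the recognition problem
-/

set_option autoImplicit false

namespace Pool.Agent.Helper99.SC

open Equiv

/-- Number of orbits, on `D`, of the group generated by a set `S` of permutations of `D`. -/
noncomputable def orb {D : Type} (S : Set (Perm D)) : ℕ :=
  Nat.card (MulAction.orbitRel.Quotient (Subgroup.closure S) D)

/-- A plane drawing with vertices in `V`, finitely many junctions and finitely many arcs, described
by its rotation system. A dart is an arc with a direction; `base d` is the point where `d` starts,
`rev d` is the same arc in the other direction, and `rot d` is the next dart around the same point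
in counterclockwise order. The drawing is plane: (number of points on arcs) - (number of arcs) +
(number of faces) = 2 (number of components), Euler's formula. Every junction has degree three,
and its `stem` is the dart of the merged arc; the other two darts are the two merging arcs. -/
structure Drawing (V : Type) where
  Dart : Type
  finDart : Finite Dart
  J : Type
  finJ : Finite J
  base : Dart → V ⊕ J
  rev : Perm Dart
  rot : Perm Dart
  rev_rev : ∀ d, rev (rev d) = d
  rev_ne : ∀ d, rev d ≠ d
  sameCycle : ∀ d e, rot.SameCycle d e ↔ base d = base e
  plane : orb {rot} + orb {rot * rev} = orb {rev} + 2 * orb {rot, rev}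
  stem : J → Dart
  base_stem : ∀ j, base (stem j) = Sum.inr j
  degree : ∀ j, Nat.card {d // base d = Sum.inr j} = 3

namespace Drawing

variable {V : Type} (T : Drawing V)

/-- A walk may pass through a junction from the dart `d` to the dart `e` without a sharp turn: `d`
ends and `e` starts at the same junction, on two different arcs (or arc ends), one of which is the
merged arc. -/
def Smooth (d e : T.Dart) : Prop :=
  ∃ j, T.base (T.rev d) = Sum.inr j ∧ T.base e = Sum.inr j ∧ T.rev d ≠ e ∧
    (T.rev d = T.stem j ∨ e = T.stem j)

/-- There is a smooth path from the vertex `u` to the vertex `v` (which may intersect itself). -/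
def Joins (u v : V) : Prop :=
  ∃ d e, T.base d = Sum.inl u ∧ Relation.ReflTransGen T.Smooth d e ∧ T.base (T.rev e) = Sum.inl v

end Drawing

/-- A graph is strongly confluent if it has a drawing with junctions in which two distinct vertices
are adjacent exactly when a smooth path, possibly intersecting itself, joins them. -/
def StronglyConfluent {V : Type} (G : SimpleGraph V) : Prop :=
  ∃ T : Drawing V, ∀ u v, u ≠ v → (G.Adj u v ↔ T.Joins u v)

open Classical in
/-- The word encoding a graph with vertices `0, …, n - 1`: `n` times the letter `true`, the letter
`false`, and the rows of the adjacency matrix. -/
noncomputable def word (n : ℕ) (G : SimpleGraph (Fin n)) : List Bool :=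
  List.replicate n true ++ false ::
    (List.finRange n).flatMap fun i => (List.finRange n).map fun j => decide (G.Adj i j)

/-- The recognition problem for strongly confluent graphs: the words encoding strongly confluent
graphs. -/
def SCONF : Set (List Bool) :=
  {w | ∃ (n : ℕ) (G : SimpleGraph (Fin n)), w = word n G ∧ StronglyConfluent G}

end Pool.Agent.Helper99.SC
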