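import Pool.Agent.Helper99.SC.Logic
import Pool.Agent.Helper20.Flip.Lang
import Pool.Agent.Helper69.TM.Equiv

/-!
# The assembly
-/

set_option autoImplicit false

namespace Pool.Agent.Helper99.SC

open Pool.Agent.Helper96 Pool.Agent.Helper20.Flip

theorem hard_of_modules (hs : M_sound) (hc : M_complete) (hg : M_geo) (hp : M_prog) (hcnf : M_cnf)
    (hw : M_word) (hpoly : M_poly) (hinj : M_inj) : NPHard SCONF := by
  intro L' hL'
  have hL : InNP L' := hL'
  obtain ⟨f, hf, hlt, hiff⟩ := hcnf L' hL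
  refine ⟨fun w => gword (9 * (f w).1 + 10) (prog (f w).1 (f w).2), ?_, ?_⟩
  · exact (Pool.Agent.Helper69.polyTimeFun_iff _).2 (hpoly.comp hf)
  · intro w
    obtain ⟨hv, hrun⟩ := hp (f w).1 (f w).2 (hlt w)
    obtain ⟨hbip, htp⟩ := hg (9 * (f w).1 + 10) (prog (f w).1 (f w).2) (by omega) hv
    rw [hiff w, ← hrun, ← htp]
    change _ ↔ gword (9 * (f w).1 + 10) (prog (f w).1 (f w).2) ∈ SCONF
    rw [hw _ _ (by omega) hv]
    constructor
    · intro h
      exact ⟨_, _, rfl, hc _ _ (by positivity) hbip h⟩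
    · rintro ⟨n, G, hG, hSC⟩
      exact hs _ _ hbip ((hinj _ _ _ _ hG).2 hSC)

end Pool.Agent.Helper99.SC
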