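import Pool.Agent.Helper99.SC.Topo

/-!
# The layout: from programs to relations on slots
-/

set_option autoImplicit false

namespace Pool.Agent.Helper99.SC

/-! ### Programs

A program acts on rows of bits, indexed by columns. An operation is a pair (code, column):
* `(0, k)` frees column `k`;
* `(1, k)` requires that the columns `k` and `k + 1` are equal;
* `(2, k)` replaces column `k` such that the old value, the new value and the value of column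
  `k - 1` are not all equal;
* `(3, k)` requires that column `k` is `false`. -/

abbrev Op := ℕ × ℕ

def Op.Valid (K : ℕ) (o : Op) : Prop :=
  o.1 < 4 ∧ o.2 < K ∧ (o.1 = 1 → o.2 + 1 < K) ∧ (o.1 = 2 → 0 < o.2)

/-- one step of a program -/
def Stp (o : Op) (x y : ℕ → Bool) : Prop :=
  match o with
  | (0, k) => ∃ b, y = Function.update x k b
  | (1, k) => y = x ∧ x k = x (k + 1)
  | (2, k) => ∃ b, y = Function.update x k b ∧ ¬ (x k = x (k - 1) ∧ b = x (k - 1))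
  | (_, k) => y = x ∧ x k = false

/-- a run of a program -/
def Run : List Op → (ℕ → Bool) → (ℕ → Bool) → Prop
  | [], x, y => y = x
  | o :: l, x, y => ∃ z, Stp o x z ∧ Run l z y

/-! ### Places

A place is `(i, ρ, k, l)`: block `i`, row `ρ` (0: T, 1: ML, 2: S, 3: MR), column `k`, local slot
`l < 16`. In the rows 1 and 3 the columns are in decreasing order. -/

abbrev Pl := ℕ × ℕ × ℕ × ℕ

/-- the order of places -/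
def plt (a b : Pl) : Prop :=
  a.1 < b.1 ∨ (a.1 = b.1 ∧ (a.2.1 < b.2.1 ∨ (a.2.1 = b.2.1 ∧
    (((a.2.1 = 1 ∨ a.2.1 = 3) ∧ b.2.2.1 < a.2.2.1) ∨
     (¬ (a.2.1 = 1 ∨ a.2.1 = 3) ∧ a.2.2.1 < b.2.2.1) ∨
     (a.2.2.1 = b.2.2.1 ∧ a.2.2.2 < b.2.2.2)))))

/-- the number of a place -/
def num (K : ℕ) (a : Pl) : ℕ :=
  ((4 * a.1 + a.2.1) * K + (if a.2.1 = 1 ∨ a.2.1 = 3 then K - 1 - a.2.2.1 else a.2.2.1)) * 16 +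
    a.2.2.2

/-- the places of the layout of a program of length `L` on `K` columns -/
def Pl.Ok (K L : ℕ) (a : Pl) : Prop := a.1 < L + 2 ∧ a.2.1 < 4 ∧ a.2.2.1 < K ∧ a.2.2.2 < 16

section rel

variable (ops : List Op)

/-- the operation of the T row of block `i` (`1 ≤ i ≤ L`); code 9 if there is none -/
def opAt (i : ℕ) : Op := if i = 0 then (9, 0) else ops.getD (i - 1) (9, 0)

/-- the targets of the T rows: `v` (slot 4), `u` (slot 11), `w` (slot 8), `qv` (slot 3),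
`qu` (slot 12), `m` (slot 7) -/
def IsTT (t : Pl) : Prop :=
  t.2.1 = 0 ∧
    ((t.2.2.2 = 4 ∧ t.1 ≤ ops.length) ∨ (t.2.2.2 = 11 ∧ 1 ≤ t.1 ∧ t.1 ≤ ops.length + 1) ∨
     (t.2.2.2 = 8 ∧ opAt ops t.1 = (2, t.2.2.1)) ∨
     (t.2.2.2 = 3 ∧ (opAt ops t.1).1 = 3) ∨ (t.2.2.2 = 12 ∧ (opAt ops t.1).1 = 3) ∨
     (t.2.2.2 = 7 ∧ opAt ops t.1 = (3, t.2.2.1)))

/-- the regular edges -/
def HR (s t : Pl) : Prop :=
  s.1 ≤ ops.length ∧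
  -- edges to `tb` (row ML, slot 4)
  ((t.2.1 = 1 ∧ t.2.2.2 = 4 ∧ t.1 = s.1 ∧
      ((s.2.1 = 1 ∧ (s.2.2.2 = 0 ∨ s.2.2.2 = 1) ∧ s.2.2.1 < t.2.2.1) ∨
       (s.2.1 = 2 ∧ (s.2.2.2 = 0 ∨ s.2.2.2 = 1 ∨ s.2.2.2 = 6) ∧ s.2.2.1 ≤ t.2.2.1) ∨
       (s.2.1 = 2 ∧ s.2.2.2 = 7 ∧ s.2.2.1 < t.2.2.1))) ∨
  -- edges to `tc` (row MR, slot 1)
   (t.2.1 = 3 ∧ t.2.2.2 = 1 ∧ t.1 = s.1 ∧
      ((s.2.1 = 2 ∧ (s.2.2.2 = 1 ∨ s.2.2.2 = 6 ∨ s.2.2.2 = 7) ∧ t.2.2.1 ≤ s.2.2.1) ∨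
       (s.2.1 = 2 ∧ s.2.2.2 = 0 ∧ t.2.2.1 < s.2.2.1) ∨
       (s.2.1 = 3 ∧ (s.2.2.2 = 4 ∨ s.2.2.2 = 5) ∧ t.2.2.1 < s.2.2.1))) ∨
  -- edges to the T rows
   (IsTT ops t ∧
      ((s.2.1 = 2 ∧ (s.2.2.2 = 0 ∨ s.2.2.2 = 1 ∨ s.2.2.2 = 6 ∨ s.2.2.2 = 7) ∧
          (t.1 = s.1 ∨ t.1 = s.1 + 1)) ∨
       (s.2.1 = 3 ∧ t.1 = s.1 + 1 ∧ ¬ (t.2.2.2 = 8 ∧ s.2.2.1 = t.2.2.1) ∧
          ((s.2.2.2 = 4 ∧ (t.2.2.1 < s.2.2.1 ∨ (t.2.2.1 = s.2.2.1 ∧ t.2.2.2 ≤ 11))) ∨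
           (s.2.2.2 = 5 ∧ (t.2.2.1 < s.2.2.1 ∨ (t.2.2.1 = s.2.2.1 ∧ t.2.2.2 < 11))))) ∨
       (s.2.1 = 1 ∧ t.1 = s.1 ∧
          ((s.2.2.2 = 1 ∧ (s.2.2.1 < t.2.2.1 ∨ (s.2.2.1 = t.2.2.1 ∧ 4 ≤ t.2.2.2))) ∨
           (s.2.2.2 = 0 ∧ (s.2.2.1 < t.2.2.1 ∨ (s.2.2.1 = t.2.2.1 ∧ 4 < t.2.2.2))))))))

/-- the edges inside the nodes of the rows ML, S, MR: to the targets `y` -/
def HY (s t : Pl) : Prop :=
  s.1 = t.1 ∧ s.2.1 = t.2.1 ∧ s.2.2.1 = t.2.2.1 ∧ s.1 ≤ ops.length ∧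
    ((s.2.1 = 1 ∧ t.2.2.2 = 3 ∧ (s.2.2.2 = 0 ∨ s.2.2.2 = 1)) ∨
     (s.2.1 = 2 ∧ t.2.2.2 = 3 ∧ (s.2.2.2 = 0 ∨ s.2.2.2 = 1)) ∨
     (s.2.1 = 2 ∧ t.2.2.2 = 4 ∧ (s.2.2.2 = 6 ∨ s.2.2.2 = 7)) ∨
     (s.2.1 = 3 ∧ t.2.2.2 = 2 ∧ (s.2.2.2 = 4 ∨ s.2.2.2 = 5)))

/-- the edges inside the nodes of the T rows -/
def HT (s t : Pl) : Prop :=
  s.1 = t.1 ∧ s.2.1 = 0 ∧ t.2.1 = 0 ∧ s.2.2.1 = t.2.2.1 ∧
    ((opAt ops s.1 = (2, s.2.2.1) ∧ s.2.2.2 = 1 ∧ (t.2.2.2 = 8 ∨ t.2.2.2 = 4)) ∨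
     ((opAt ops s.1).1 = 3 ∧ ((s.2.2.2 = 6 ∧ (t.2.2.2 = 3 ∨ t.2.2.2 = 4)) ∨
        (s.2.2.2 = 9 ∧ (t.2.2.2 = 11 ∨ t.2.2.2 = 12)))))

/-- the edges of the constant `p = (0, 0, 0, 1)` -/
def HP (s t : Pl) : Prop := s = (0, 0, 0, 1) ∧ (opAt ops t.1).1 = 3 ∧ IsTT ops t

/-- the edges with both ends of degree one -/
def HD (s t : Pl) : Prop :=
  (s = (0, 0, 0, 0) ∧ t = (0, 0, 0, 2)) ∨
  (s.1 = t.1 ∧ s.2.1 = t.2.1 ∧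
    ((s.2.2.1 = t.2.2.1 ∧ s.1 ≤ ops.length ∧
        ((s.2.1 = 1 ∧ s.2.2.2 = 2 ∧ t.2.2.2 = 5) ∨ (s.2.1 = 2 ∧ s.2.2.2 = 2 ∧ t.2.2.2 = 5) ∨
         (s.2.1 = 3 ∧ s.2.2.2 = 0 ∧ t.2.2.2 = 3))) ∨
     (s.2.1 = 0 ∧
       (((opAt ops s.1).1 = 3 ∧ s.2.2.1 = t.2.2.1 ∧ s.2.2.2 = 5 ∧ t.2.2.2 = 10) ∨
        ((opAt ops s.1).1 = 0 ∧ s.2.2.1 ≠ (opAt ops s.1).2 ∧ s.2.2.1 = t.2.2.1 ∧
          s.2.2.2 = 0 ∧ t.2.2.2 = 13) ∨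
        ((opAt ops s.1).1 = 1 ∧ s.2.2.1 = (opAt ops s.1).2 ∧ t.2.2.1 = s.2.2.1 + 1 ∧
          s.2.2.2 = 0 ∧ t.2.2.2 = 13) ∨
        ((opAt ops s.1).1 = 1 ∧ s.2.2.1 ≠ (opAt ops s.1).2 ∧ s.2.2.1 ≠ (opAt ops s.1).2 + 1 ∧
          s.2.2.1 = t.2.2.1 ∧ s.2.2.2 = 0 ∧ t.2.2.2 = 13) ∨
        ((opAt ops s.1).1 = 2 ∧ s.2.2.1 + 1 = (opAt ops s.1).2 ∧ t.2.2.1 = s.2.2.1 + 1 ∧
          s.2.2.2 = 0 ∧ t.2.2.2 = 2) ∨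
        ((opAt ops s.1).1 = 2 ∧ s.2.2.1 + 1 ≠ (opAt ops s.1).2 ∧ s.2.2.1 ≠ (opAt ops s.1).2 ∧
          s.2.2.1 = t.2.2.1 ∧ s.2.2.2 = 0 ∧ t.2.2.2 = 13)))))

/-- the edges of the layout -/
def HH (s t : Pl) : Prop := HR ops s t ∨ HY ops s t ∨ HT ops s t ∨ HP ops s t ∨ HD ops s t

/-- the relation on slots -/
def slotRel (K : ℕ) (a b : ℕ) : Prop :=
  ∃ s t, Pl.Ok K ops.length s ∧ Pl.Ok K ops.length t ∧ HH ops s t ∧ num K s = a ∧ num K t = b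

end rel

instance (ops : List Op) (t : Pl) : Decidable (IsTT ops t) := by unfold IsTT; infer_instance
instance (ops : List Op) (s t : Pl) : Decidable (HR ops s t) := by unfold HR; infer_instance
instance (ops : List Op) (s t : Pl) : Decidable (HY ops s t) := by unfold HY; infer_instance
instance (ops : List Op) (s t : Pl) : Decidable (HT ops s t) := by unfold HT; infer_instance
instance (ops : List Op) (s t : Pl) : Decidable (HP ops s t) := by unfold HP; infer_instance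
instance (ops : List Op) (s t : Pl) : Decidable (HD ops s t) := by unfold HD; infer_instance
instance (ops : List Op) (s t : Pl) : Decidable (HH ops s t) := by unfold HH; infer_instance
instance (a b : Pl) : Decidable (plt a b) := by unfold plt; infer_instance

end Pool.Agent.Helper99.SC
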