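import Pool.Agent.Helper99.SC.Geo

/-!
# Statements of the modules on the layout
-/

set_option autoImplicit false

namespace Pool.Agent.Helper99.SC

/-- one step of a program, seen on the columns below `K` -/
def StpK (K : ℕ) (o : Op) (x y : ℕ → Bool) : Prop :=
  match o with
  | (0, k) => ∀ j < K, j ≠ k → y j = x j
  | (1, k) => (∀ j < K, y j = x j) ∧ x k = x (k + 1)
  | (2, k) => (∀ j < K, j ≠ k → y j = x j) ∧ ¬ (x k = x (k - 1) ∧ y k = x (k - 1))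
  | (_, k) => (∀ j < K, y j = x j) ∧ x k = false

/-- `c` is strictly between `a` and `b` -/
def btw (a b c : Pl) : Prop := (plt a c ∧ plt c b) ∨ (plt b c ∧ plt c a)

/-- `d` is strictly outside the span of `a` and `b` -/
def outs (a b d : Pl) : Prop := (plt d a ∧ plt d b) ∨ (plt a d ∧ plt b d)

/-- the chords `ab` and `cd` cross -/
def PCross (a b c d : Pl) : Prop := (btw a b c ∧ outs a b d) ∨ (btw a b d ∧ outs a b c)

/-- MODULE SG1 (numbers of places). -/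
def M_num : Prop :=
  ∀ K L : ℕ, 0 < K →
    (∀ a b, Pl.Ok K L a → Pl.Ok K L b → (plt a b ↔ num K a < num K b)) ∧
    (∀ a b, Pl.Ok K L a → Pl.Ok K L b → num K a = num K b → a = b) ∧
    (∀ a, Pl.Ok K L a → num K a < (L + 2) * 4 * K * 16) ∧
    (∀ q < (L + 2) * 4 * K * 16, ∃ a, Pl.Ok K L a ∧ num K a = q) ∧
    (∀ a b c d, Pl.Ok K L a → Pl.Ok K L b → Pl.Ok K L c → Pl.Ok K L d →
      (Cross (num K a) (num K b) (num K c) (num K d) ↔ PCross a b c d))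

/-- MODULE SG2 (sources and targets). -/
def M_bip : Prop :=
  ∀ (K : ℕ) (ops : List Op), (∀ o ∈ ops, o.Valid K) → ∀ a b c, Pl.Ok K ops.length a →
    Pl.Ok K ops.length b → Pl.Ok K ops.length c → HH ops a b → ¬ HH ops b c

section pages

variable (ops : List Op) (X : ℕ → ℕ → Bool)

/-- regular edges in the page `b`; `X i k` is the bit of the wires between `T_i` and `T_(i+1)` -/
def PR (b : Bool) (s t : Pl) : Prop :=
  HR ops s t ∧
    (((t.2.1 = 1 ∨ t.2.1 = 3) ∧ b = !X t.1 t.2.2.1) ∨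
     (t.2.1 = 0 ∧ (opAt ops t.1).1 = 3 ∧
       ((t.2.2.2 = 4 ∧
          ((s.2.1 = 1 ∧ s.2.2.2 = 1 ∧ s.2.2.1 = t.2.2.1 ∧ b = X t.1 t.2.2.1) ∨
           (¬ (s.2.1 = 1 ∧ s.2.2.2 = 1 ∧ s.2.2.1 = t.2.2.1) ∧
             (b = true ∨ X t.1 t.2.2.1 = false)))) ∨
        (t.2.2.2 = 11 ∧
          ((s.2.1 = 3 ∧ s.2.2.2 = 4 ∧ s.2.2.1 = t.2.2.1 ∧ b = X (t.1 - 1) t.2.2.1) ∨
           (¬ (s.2.1 = 3 ∧ s.2.2.2 = 4 ∧ s.2.2.1 = t.2.2.1) ∧
             (b = true ∨ X (t.1 - 1) t.2.2.1 = false)))) ∨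
        (t.2.2.2 ≠ 4 ∧ t.2.2.2 ≠ 11 ∧ b = true))) ∨
     (t.2.1 = 0 ∧ opAt ops t.1 = (2, t.2.2.1) ∧
       ((t.2.2.2 = 11 ∧ b = X (t.1 - 1) t.2.2.1) ∨
        (t.2.2.2 = 8 ∧ b = !X (t.1 - 1) t.2.2.1) ∨
        (t.2.2.2 = 4 ∧
          ((s.2.1 = 3 ∧ s.2.2.1 = t.2.2.1 ∧ b = !X t.1 (t.2.2.1 - 1)) ∨
           (s.2.1 = 1 ∧ s.2.2.2 = 1 ∧ s.2.2.1 = t.2.2.1 ∧ b = X t.1 t.2.2.1) ∨
           (¬ (s.2.1 = 3 ∧ s.2.2.1 = t.2.2.1) ∧
             ¬ (s.2.1 = 1 ∧ s.2.2.2 = 1 ∧ s.2.2.1 = t.2.2.1) ∧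
             (b = X t.1 t.2.2.1 ∨ b = !X t.1 (t.2.2.1 - 1))))))) ∨
     (t.2.1 = 0 ∧ (opAt ops t.1).1 ≠ 3 ∧ opAt ops t.1 ≠ (2, t.2.2.1) ∧
       ((t.2.2.2 = 4 ∧ b = X t.1 t.2.2.1) ∨ (t.2.2.2 = 11 ∧ b = X (t.1 - 1) t.2.2.1))))

def PY (b : Bool) (s t : Pl) : Prop :=
  HY ops s t ∧ (((s.2.1 = 1 ∨ s.2.1 = 3) ∧ b = !X s.1 s.2.2.1) ∨ (s.2.1 = 2 ∧ b = X s.1 s.2.2.1))

def PT (b : Bool) (s t : Pl) : Prop :=
  HT ops s t ∧ (((opAt ops s.1).1 = 2 ∧ b = X s.1 (s.2.2.1 - 1)) ∨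
    ((opAt ops s.1).1 = 3 ∧ b = !X s.1 s.2.2.1))

def PP (b : Bool) (s t : Pl) : Prop := HP ops s t ∧ b = true

def PD (b : Bool) (s t : Pl) : Prop :=
  HD ops s t ∧ ((s = (0, 0, 0, 0) ∧ b = false) ∨
    ((s.2.1 = 1 ∨ s.2.1 = 3) ∧ b = X s.1 s.2.2.1) ∨
    (s.2.1 = 2 ∧ b = !X s.1 s.2.2.1) ∨
    (s.2.1 = 0 ∧ (opAt ops s.1).1 = 3 ∧ b = X s.1 s.2.2.1) ∨
    (s.2.1 = 0 ∧ (opAt ops s.1).1 < 3 ∧ b = !X s.1 s.2.2.1))

/-- the page `b` of the run `X` -/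
def Pg (b : Bool) (s t : Pl) : Prop :=
  PR ops X b s t ∨ PY ops X b s t ∨ PT ops X b s t ∨ PP ops b s t ∨ PD ops X b s t

/-- `X` is a run of the program `ops` on `K` columns -/
def IsRun (K : ℕ) : Prop := ∀ i < ops.length, StpK K (ops.getD i (9, 0)) (X i) (X (i + 1))

end pages

/-- closure under swapping for pairs of edges with a property `φ` -/
def Clo (φ : List Op → Pl → Pl → Pl → Pl → Prop) : Prop :=
  ∀ (K : ℕ) (ops : List Op) (X : ℕ → ℕ → Bool), (∀ o ∈ ops, o.Valid K) → IsRun ops X K →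
    ∀ b s t s' t', Pl.Ok K ops.length s → Pl.Ok K ops.length t → Pl.Ok K ops.length s' →
      Pl.Ok K ops.length t' → φ ops s t s' t' → Pg ops X b s t → Pg ops X b s' t' →
      PCross s t s' t' → Pg ops X b s t'

/-- MODULE SG3 (two regular edges). -/
def M_cRR : Prop := Clo fun ops s t s' t' => HR ops s t ∧ HR ops s' t'

/-- MODULE SG4 (an edge inside a node of a row ML, S, MR). -/
def M_cY : Prop := Clo fun ops s t s' t' => HY ops s t ∨ HY ops s' t'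

/-- MODULE SG5 (an edge inside a node of a T row). -/
def M_cT : Prop := Clo fun ops s t s' t' => HT ops s t ∨ HT ops s' t'

/-- MODULE SG6 (an edge of the constant). -/
def M_cP : Prop := Clo fun ops s t s' t' => HP ops s t ∨ HP ops s' t'

/-- MODULE SG7 (an isolated edge). -/
def M_cD : Prop := Clo fun ops s t s' t' => HD ops s t ∨ HD ops s' t'

/-- MODULE SG8 (the pages cover the relation). -/
def M_cov : Prop :=
  ∀ (K : ℕ) (ops : List Op) (X : ℕ → ℕ → Bool) (s t : Pl), (∀ o ∈ ops, o.Valid K) →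
    IsRun ops X K → (HH ops s t ↔ Pg ops X true s t ∨ Pg ops X false s t)

/-- a pair of pages -/
structure Pages (K : ℕ) (ops : List Op) (P : Bool → Pl → Pl → Prop) : Prop where
  cov : ∀ s t, Pl.Ok K ops.length s → Pl.Ok K ops.length t →
    (HH ops s t ↔ P true s t ∨ P false s t)
  clo : ∀ b s t s' t', Pl.Ok K ops.length s → Pl.Ok K ops.length t → Pl.Ok K ops.length s' →
    Pl.Ok K ops.length t' → P b s t → P b s' t' → PCross s t s' t' → P b s t' ∧ P b s' t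

/-- MODULE SG9 (the bits of the wires). -/
def M_bits : Prop :=
  ∀ (K : ℕ) (ops : List Op) (P : Bool → Pl → Pl → Prop), (∀ o ∈ ops, o.Valid K) →
    Pages K ops P → ∃ X : ℕ → ℕ → Bool, ∀ i ≤ ops.length, ∀ k < K,
      (∀ b, P b (i, 1, k, 1) (i, 0, k, 4) ↔ b = X i k) ∧
      (∀ b, P b (i, 3, k, 4) (i + 1, 0, k, 11) ↔ b = X i k)

/-- MODULE SG10 (every row performs its operation). -/
def M_rows : Prop :=
  ∀ (K : ℕ) (ops : List Op) (P : Bool → Pl → Pl → Prop), (∀ o ∈ ops, o.Valid K) →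
    Pages K ops P → ∃ X : ℕ → ℕ → Bool, IsRun ops X K

/-- MODULE SG11 (runs). -/
def M_run : Prop :=
  ∀ (K : ℕ) (ops : List Op), (∀ o ∈ ops, o.Valid K) →
    ((∃ X, IsRun ops X K) ↔ ∃ x y, Run ops x y)

/-- MODULE SG12 (the layout). -/
def M_geo : Prop :=
  ∀ (K : ℕ) (ops : List Op), 0 < K → (∀ o ∈ ops, o.Valid K) →
    Bip ((ops.length + 2) * 4 * K * 16) (slotRel ops K) ∧
    (TwoPage (slotRel ops K) ↔ ∃ x y, Run ops x y)

end Pool.Agent.Helper99.SC
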