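import Pool.Agent.Helper99.SC.GeoStmts
import Pool.Agent.Helper53.Flip.SubSum

/-!
# Programs for satisfiability, and the statements of the remaining modules
-/

set_option autoImplicit false

namespace Pool.Agent.Helper99.SC

open Pool.Agent.Helper96

/-! ### Macros -/

/-- column `k` becomes `false` -/
def rst (k : ℕ) : List Op := [(0, k), (3, k)]

/-- column `k` is copied to column `k + 1` -/
def cpr (k : ℕ) : List Op := [(0, k + 1), (1, k)]

/-- column `k + 1` is copied to column `k` -/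
def cpl (k : ℕ) : List Op := [(0, k), (1, k)]

/-- `(a, ?, ?, b)` becomes `(a, a, false, ¬ (a ∧ b))` -/
def nnd (k : ℕ) : List Op :=
  [(0, k + 1), (1, k), (0, k + 2), (1, k + 2), (2, k + 2), (2, k + 3), (3, k + 3), (0, k + 3),
    (1, k + 2), (2, k + 2), (3, k + 2)]

/-- `xor` of the columns `k` and `k + 8` in column `k + 6` -/
def xorm (k : ℕ) : List Op :=
  cpl (k + 7) ++ cpl (k + 6) ++ cpl (k + 5) ++ cpl (k + 4) ++ cpl (k + 3) ++ nnd k ++
    cpr (k + 3) ++ nnd k ++ nnd (k + 4) ++ cpl (k + 6) ++ nnd (k + 3)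

/-- the columns `k` and `k + 9` are swapped -/
def swp (k : ℕ) : List Op :=
  cpl (k + 8) ++ xorm k ++ cpr (k + 6) ++ cpr (k + 7) ++ xorm k ++ cpl (k + 5) ++ cpl (k + 4) ++
    cpl (k + 3) ++ cpl (k + 2) ++ cpl (k + 1) ++ cpl k ++ cpl (k + 7) ++ cpl (k + 6) ++
    cpl (k + 5) ++ cpl (k + 4) ++ cpl (k + 3) ++ cpl (k + 2) ++ cpl (k + 1) ++ xorm (k + 1) ++
    cpr (k + 7) ++ cpr (k + 8)

/-- column `k` becomes column `k` or column `k + 9` -/
def orp (k : ℕ) : List Op :=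
  cpr k ++ cpr (k + 1) ++ cpr (k + 2) ++ nnd k ++ cpl (k + 8) ++ cpl (k + 7) ++ cpl (k + 6) ++
    cpl (k + 5) ++ nnd (k + 5) ++ cpl (k + 7) ++ cpl (k + 6) ++ nnd (k + 3) ++ cpl (k + 5) ++
    cpl (k + 4) ++ cpl (k + 3) ++ cpl (k + 2) ++ cpl (k + 1) ++ cpl k

/-- column `k` becomes column `k` or not column `k + 9` -/
def orn (k : ℕ) : List Op :=
  cpr k ++ cpr (k + 1) ++ cpr (k + 2) ++ nnd k ++ cpl (k + 8) ++ cpl (k + 7) ++ cpl (k + 6) ++
    nnd (k + 3) ++ cpl (k + 5) ++ cpl (k + 4) ++ cpl (k + 3) ++ cpl (k + 2) ++ cpl (k + 1) ++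
    cpl k

/-- column `k` is required to be `true` -/
def ast (k : ℕ) : List Op := cpr k ++ cpr (k + 1) ++ cpr (k + 2) ++ nnd k ++ [(3, k + 3)]

/-- the operations for the variable `j` of a clause -/
def litOps (c : List (ℕ × Bool)) (j : ℕ) : List Op :=
  (if (j, true) ∈ c then orp (9 * j) else []) ++ (if (j, false) ∈ c then orn (9 * j) else []) ++
    swp (9 * j)

/-- the operations for a clause in the variables `0, …, n - 1` -/
def clauseOps (n : ℕ) (c : List (ℕ × Bool)) : List Op :=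
  rst 0 ++ (List.range n).flatMap (litOps c) ++ ast (9 * n) ++
    (List.range n).flatMap fun j => swp (9 * (n - 1 - j))

/-- the program testing the satisfiability of a list of clauses in the variables `0, …, n - 1`, on
`9 n + 10` columns -/
def prog (n : ℕ) (cls : List (List (ℕ × Bool))) : List Op := cls.flatMap (clauseOps n)

/-- MODULE SL1 (the macros). -/
def M_macro : Prop :=
  (∀ k x y, Run (rst k) x y ↔ y = Function.update x k false) ∧
  (∀ k, ∃ f : (ℕ → Bool) → ℕ → Bool, (∀ x y, Run (swp k) x y ↔ y = f x) ∧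
    ∀ x, f x k = x (k + 9) ∧ f x (k + 9) = x k ∧ ∀ j, j < k ∨ k + 9 < j → f x j = x j) ∧
  (∀ k, ∃ f : (ℕ → Bool) → ℕ → Bool, (∀ x y, Run (orp k) x y ↔ y = f x) ∧
    ∀ x, f x k = (x k || x (k + 9)) ∧ ∀ j, j < k ∨ k + 9 ≤ j → f x j = x j) ∧
  (∀ k, ∃ f : (ℕ → Bool) → ℕ → Bool, (∀ x y, Run (orn k) x y ↔ y = f x) ∧
    ∀ x, f x k = (x k || !x (k + 9)) ∧ ∀ j, j < k ∨ k + 9 ≤ j → f x j = x j) ∧
  (∀ k, ∃ f : (ℕ → Bool) → ℕ → Bool, (∀ x y, Run (ast k) x y ↔ x k = true ∧ y = f x) ∧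
    ∀ x j, j ≤ k ∨ k + 3 < j → f x j = x j)

/-- MODULE SL2 (the program). -/
def M_prog : Prop :=
  ∀ (n : ℕ) (cls : List (List (ℕ × Bool))), (∀ c ∈ cls, ∀ l ∈ c, l.1 < n) →
    (∀ o ∈ prog n cls, o.Valid (9 * n + 10)) ∧
    ((∃ x y, Run (prog n cls) x y) ↔ ∃ β : ℕ → Bool, ∀ c ∈ cls, ∃ l ∈ c, β l.1 = l.2)

/-- MODULE SL3 (satisfiability is NP-hard). -/
def M_cnf : Prop :=
  ∀ L : Set (List Bool), InNP L → ∃ f : List Bool → ℕ × List (List (ℕ × Bool)), Poly f ∧
    (∀ w, ∀ c ∈ (f w).2, ∀ l ∈ c, l.1 < (f w).1) ∧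
    ∀ w, w ∈ L ↔ ∃ β : ℕ → Bool, ∀ c ∈ (f w).2, ∃ l ∈ c, β l.1 = l.2

/-! ### The word of the graph -/

/-- the vertices of the graph: `(i, ρ, κ, m)` with `κ` the physical column and `m < 64`; the slots
are the vertices with `m = 4 l + 2` -/
def verts (K L : ℕ) : List (ℕ × ℕ × ℕ × ℕ) :=
  (List.range (L + 2)).flatMap fun i => (List.range 4).flatMap fun ρ =>
    (List.range K).flatMap fun κ => (List.range 64).map fun m => (i, ρ, κ, m)

/-- the number of a vertex -/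
def vnum (K : ℕ) (v : ℕ × ℕ × ℕ × ℕ) : ℕ := ((4 * v.1 + v.2.1) * K + v.2.2.1) * 64 + v.2.2.2

/-- the place in slot `l` of the column of a vertex -/
def vpl (K : ℕ) (v : ℕ × ℕ × ℕ × ℕ) (l : ℕ) : Pl :=
  (v.1, v.2.1, if v.2.1 = 1 ∨ v.2.1 = 3 then K - 1 - v.2.2.1 else v.2.2.1, l)

/-- adjacency -/
def vadj (K : ℕ) (ops : List Op) (v w : ℕ × ℕ × ℕ × ℕ) : Bool :=
  decide (vnum K v + 1 = vnum K w) || decide (vnum K w + 1 = vnum K v) ||
    (decide (vnum K v = 0) && decide (vnum K w + 1 = (ops.length + 2) * 4 * K * 64)) ||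
    (decide (vnum K w = 0) && decide (vnum K v + 1 = (ops.length + 2) * 4 * K * 64)) ||
    (List.range 16).any fun l => (List.range 16).any fun l' =>
      decide (v.2.2.2 = 4 * l + 2) && decide (w.2.2.2 = 4 * l' + 2) &&
        (decide (HH ops (vpl K v l) (vpl K w l')) || decide (HH ops (vpl K w l') (vpl K v l)))

/-- the word of the graph of a program -/
def gword (K : ℕ) (ops : List Op) : List Bool :=
  List.replicate ((ops.length + 2) * 4 * K * 64) true ++ false ::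
    (verts K ops.length).flatMap fun v => (verts K ops.length).map fun w => vadj K ops v w

/-- MODULE SL4 (the word of the graph). -/
def M_word : Prop :=
  ∀ (K : ℕ) (ops : List Op), 0 < K → (∀ o ∈ ops, o.Valid K) →
    gword K ops = word (4 * ((ops.length + 2) * 4 * K * 16))
      (slotGraph ((ops.length + 2) * 4 * K * 16) (slotRel ops K))

/-- MODULE SL5 (polynomial time). -/
def M_poly : Prop :=
  Poly fun p : ℕ × List (List (ℕ × Bool)) => gword (9 * p.1 + 10) (prog p.1 p.2)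

/-- MODULE SL6 (a word determines the graph). -/
def M_inj : Prop :=
  ∀ (n n' : ℕ) (G : SimpleGraph (Fin n)) (G' : SimpleGraph (Fin n')),
    word n G = word n' G' → (StronglyConfluent G ↔ StronglyConfluent G')

end Pool.Agent.Helper99.SC
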