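import Pool.Agent.Helper99.SC.Logic

/-!
# Module SL1: the macros
-/

set_option autoImplicit false
set_option linter.unusedSimpArgs false

namespace Pool.Agent.Helper99.SC

theorem run_append (l l' : List Op) (x y : ℕ → Bool) :
    Run (l ++ l') x y ↔ ∃ z, Run l x z ∧ Run l' z y := by
  induction l generalizing x with
  | nil => simp [Run]
  | cons o l ih =>
    simp only [List.cons_append, Run, ih]
    constructor
    · rintro ⟨z, h1, z', h2, h3⟩
      exact ⟨z', ⟨z, h1, h2⟩, h3⟩
    · rintro ⟨z', ⟨z, h1, h2⟩, h3⟩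
      exact ⟨z, h1, z', h2, h3⟩

/-- the program computes the function `f` -/
def Det (l : List Op) (f : (ℕ → Bool) → ℕ → Bool) : Prop := ∀ x y, Run l x y ↔ y = f x

theorem Det.append {l l' : List Op} {f g : (ℕ → Bool) → ℕ → Bool} (h : Det l f) (h' : Det l' g) :
    Det (l ++ l') (fun x => g (f x)) := by
  intro x y
  rw [run_append]
  constructor
  · rintro ⟨z, h1, h2⟩
    rw [h] at h1
    subst h1
    exact (h' _ _).1 h2
  · rintro rfl
    exact ⟨f x, (h _ _).2 rfl, (h' _ _).2 rfl⟩

theorem det_rst (k : ℕ) : Det (rst k) fun x => Function.update x k false := by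
  intro x y
  simp only [rst, Run, Stp]
  constructor
  · rintro ⟨z, ⟨b, rfl⟩, z', ⟨rfl, h⟩, rfl⟩
    rw [Function.update_self] at h
    rw [h]
  · rintro rfl
    exact ⟨_, ⟨false, rfl⟩, _, ⟨rfl, by simp⟩, rfl⟩

theorem det_cpr (k : ℕ) : Det (cpr k) fun x => Function.update x (k + 1) (x k) := by
  intro x y
  simp only [cpr, Run, Stp]
  constructor
  · rintro ⟨z, ⟨b, rfl⟩, z', ⟨rfl, h⟩, rfl⟩
    rw [Function.update_self, Function.update_of_ne (by omega)] at h
    rw [h]
  · rintro rfl
    exact ⟨_, ⟨x k, rfl⟩, _, ⟨rfl, by simp⟩, rfl⟩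

theorem det_cpl (k : ℕ) : Det (cpl k) fun x => Function.update x k (x (k + 1)) := by
  intro x y
  simp only [cpl, Run, Stp]
  constructor
  · rintro ⟨z, ⟨b, rfl⟩, z', ⟨rfl, h⟩, rfl⟩
    rw [Function.update_self, Function.update_of_ne (by omega)] at h
    rw [h]
  · rintro rfl
    exact ⟨_, ⟨x (k + 1), rfl⟩, _, ⟨rfl, by simp⟩, rfl⟩

/-- the function of `nnd` -/
def nndF (k : ℕ) (x : ℕ → Bool) : ℕ → Bool :=
  Function.update (Function.update (Function.update x (k + 1) (x k)) (k + 2) false) (k + 3)
    (!(x k && x (k + 3)))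

theorem det_nnd (k : ℕ) : Det (nnd k) (nndF k) := by
  have e : nnd k = cpr k ++ cpl (k + 2) ++ [(2, k + 2), (2, k + 3), (3, k + 3)] ++ cpr (k + 2) ++
      [(2, k + 2), (3, k + 2)] := rfl
  have h1 := (det_cpr k).append (det_cpl (k + 2))
  intro x y
  rw [e, run_append, ]
  simp only [run_append (_ ++ _) (cpr (k + 2)), run_append (_ ++ _) [(2, k + 2), (2, k + 3), (3, k + 3)]]
  constructor
  · rintro ⟨z₄, ⟨z₃, ⟨z₂, h2, h3⟩, h4⟩, h5⟩
    rw [h1] at h2
    rw [det_cpr] at h4
    simp only [Run, Stp] at h3 h5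
    obtain ⟨z, ⟨c, hz, hc⟩, z', ⟨d, hz', hd⟩, z'', ⟨hz'', he⟩, rfl⟩ := h3
    obtain ⟨u, ⟨f, hu, hf⟩, u', ⟨hu', hg⟩, rfl⟩ := h5
    subst h2 hz hz' hz'' h4 hu hu'
    simp only [show k + 2 - 1 = k + 1 by omega, show k + 3 - 1 = k + 2 by omega] at hc hd hf
    simp at hc hd he hf hg
    subst hg he
    unfold nndF
    funext j
    simp only [Function.update_apply]
    generalize x k = a at *
    generalize x (k + 3) = b at *
    by_cases j3 : j = k + 3
    · subst j3
      revert hc hd hf
      cases a <;> cases b <;> cases c <;> simp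
    · by_cases j2 : j = k + 2
      · subst j2; simp
      · by_cases j1 : j = k + 1
        · subst j1; simp
        · simp [j1, j2, j3]
  · rintro rfl
    obtain ⟨Z, hZ⟩ : ∃ Z, Z = Function.update (Function.update x (k + 1) (x k)) (k + 2)
        (Function.update x (k + 1) (x k) (k + 2 + 1)) := ⟨_, rfl⟩
    obtain ⟨c, hc⟩ : ∃ c, c = !(x k && x (k + 3)) := ⟨_, rfl⟩
    obtain ⟨Z₃, hZ₃⟩ : ∃ Z₃, Z₃ = Function.update (Function.update Z (k + 2) c) (k + 3) false :=
      ⟨_, rfl⟩
    refine ⟨Function.update Z₃ (k + 2 + 1) (Z₃ (k + 2)),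
      ⟨Z₃, ⟨Z, (h1 x Z).2 hZ, ?_⟩, (det_cpr _ _ _).2 rfl⟩, ?_⟩
    · simp only [Run, Stp]
      refine ⟨_, ⟨c, rfl, ?_⟩, _, ⟨false, rfl, ?_⟩, _, ⟨rfl, ?_⟩, hZ₃⟩
      · subst hZ hc
        simp
        cases x k <;> cases x (k + 3) <;> simp
      · subst hZ hc
        simp
        cases x k <;> cases x (k + 3) <;> simp
      · simp
    · simp only [Run, Stp]
      refine ⟨_, ⟨false, rfl, ?_⟩, _, ⟨rfl, ?_⟩, ?_⟩
      · subst hZ₃ hZ hc
        simp
        cases x k <;> cases x (k + 3) <;> simp
      · simp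
      · subst hZ₃ hZ hc
        unfold nndF
        funext j
        simp only [Function.update_apply]
        by_cases j3 : j = k + 3
        · subst j3; simp
        · by_cases j2 : j = k + 2
          · subst j2; simp
          · by_cases j1 : j = k + 1
            · subst j1; simp
            · simp [j1, j2, j3]

theorem nndF_3 (k : ℕ) (x : ℕ → Bool) : nndF k x (k + 3) = !(x k && x (k + 3)) := by
  simp [nndF]

theorem nndF_of_ne (k : ℕ) (x : ℕ → Bool) {j : ℕ} (h : j ≤ k ∨ k + 3 < j) : nndF k x j = x j := by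
  unfold nndF
  rw [Function.update_of_ne (by omega), Function.update_of_ne (by omega),
    Function.update_of_ne (by omega)]

/-- the function of `xorm` -/
theorem det_xorm (k : ℕ) : ∃ f : (ℕ → Bool) → ℕ → Bool, Det (xorm k) f ∧
    ∀ x, f x (k + 6) = (x k ^^ x (k + 8)) ∧ ∀ j, (j ≤ k ∨ k + 7 < j) → f x j = x j := by
  refine ⟨_, ((((((((((det_cpl (k + 7)).append (det_cpl (k + 6))).append (det_cpl (k + 5))).append
    (det_cpl (k + 4))).append (det_cpl (k + 3))).append (det_nnd k)).append
    (det_cpr (k + 3))).append (det_nnd k)).append (det_nnd (k + 4))).append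
    (det_cpl (k + 6))).append (det_nnd (k + 3)), ?_⟩
  intro x
  constructor
  · simp [nndF, show ¬ k = k + 3 + 1 by omega]
    cases x k <;> cases x (k + 8) <;> simp
  · intro j hj
    rw [nndF_of_ne _ _ (by omega), Function.update_of_ne (by omega), nndF_of_ne _ _ (by omega),
      nndF_of_ne _ _ (by omega), Function.update_of_ne (by omega), nndF_of_ne _ _ (by omega),
      Function.update_of_ne (by omega), Function.update_of_ne (by omega),
      Function.update_of_ne (by omega), Function.update_of_ne (by omega),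
      Function.update_of_ne (by omega)]

theorem det_swp (k : ℕ) : ∃ f : (ℕ → Bool) → ℕ → Bool, Det (swp k) f ∧
    ∀ x, f x k = x (k + 9) ∧ f x (k + 9) = x k ∧ ∀ j, j < k ∨ k + 9 < j → f x j = x j := by
  obtain ⟨f, hf, hf'⟩ := det_xorm k
  obtain ⟨g, hg, hg'⟩ := det_xorm (k + 1)
  refine ⟨_, ((((((((((((((((((((det_cpl (k + 8)).append hf).append (det_cpr (k + 6))).append
    (det_cpr (k + 7))).append hf).append (det_cpl (k + 5))).append (det_cpl (k + 4))).append
    (det_cpl (k + 3))).append (det_cpl (k + 2))).append (det_cpl (k + 1))).append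
    (det_cpl k)).append (det_cpl (k + 7))).append (det_cpl (k + 6))).append
    (det_cpl (k + 5))).append (det_cpl (k + 4))).append (det_cpl (k + 3))).append
    (det_cpl (k + 2))).append (det_cpl (k + 1))).append hg).append (det_cpr (k + 7))).append
    (det_cpr (k + 8)), ?_⟩
  intro x
  have f6 : ∀ x, f x (k + 6) = (x k ^^ x (k + 8)) := fun x => (hf' x).1
  have f0 : ∀ x, f x k = x k := fun x => (hf' x).2 k (by omega)
  have f8 : ∀ x, f x (k + 8) = x (k + 8) := fun x => (hf' x).2 _ (by omega)
  have f9 : ∀ x, f x (k + 9) = x (k + 9) := fun x => (hf' x).2 _ (by omega)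
  have g7 : ∀ x, g x (k + 7) = (x (k + 1) ^^ x (k + 9)) := fun x => (hg' x).1
  have g0 : ∀ x, g x k = x k := fun x => (hg' x).2 k (by omega)
  have g9 : ∀ x, g x (k + 9) = x (k + 9) := fun x => (hg' x).2 _ (by omega)
  refine ⟨?_, ?_, ?_⟩
  · simp [Nat.add_assoc, f6, f0, f8, f9, g7, g0, g9]
  · simp [Nat.add_assoc, f6, f0, f8, f9, g7, g0, g9]
  · intro j hj
    rw [Function.update_of_ne (by omega), Function.update_of_ne (by omega),
      (hg' _).2 j (by omega), Function.update_of_ne (by omega), Function.update_of_ne (by omega),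
      Function.update_of_ne (by omega), Function.update_of_ne (by omega),
      Function.update_of_ne (by omega), Function.update_of_ne (by omega),
      Function.update_of_ne (by omega), Function.update_of_ne (by omega),
      Function.update_of_ne (by omega), Function.update_of_ne (by omega),
      Function.update_of_ne (by omega), Function.update_of_ne (by omega),
      Function.update_of_ne (by omega), (hf' _).2 j (by omega), Function.update_of_ne (by omega),
      Function.update_of_ne (by omega), (hf' _).2 j (by omega), Function.update_of_ne (by omega)]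

theorem det_orp (k : ℕ) : ∃ f : (ℕ → Bool) → ℕ → Bool, Det (orp k) f ∧
    ∀ x, f x k = (x k || x (k + 9)) ∧ ∀ j, j < k ∨ k + 9 ≤ j → f x j = x j := by
  refine ⟨_, (((((((((((((((((det_cpr k).append (det_cpr (k + 1))).append (det_cpr (k + 2))).append
    (det_nnd k)).append (det_cpl (k + 8))).append (det_cpl (k + 7))).append
    (det_cpl (k + 6))).append (det_cpl (k + 5))).append (det_nnd (k + 5))).append
    (det_cpl (k + 7))).append (det_cpl (k + 6))).append (det_nnd (k + 3))).append
    (det_cpl (k + 5))).append (det_cpl (k + 4))).append (det_cpl (k + 3))).append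
    (det_cpl (k + 2))).append (det_cpl (k + 1))).append (det_cpl k), ?_⟩
  intro x
  constructor
  · simp [nndF, Nat.add_assoc]
  · intro j hj
    simp only [nndF_of_ne _ _ (show j ≤ k ∨ k + 3 < j by omega),
      nndF_of_ne _ _ (show j ≤ k + 3 ∨ k + 3 + 3 < j by omega),
      nndF_of_ne _ _ (show j ≤ k + 5 ∨ k + 5 + 3 < j by omega),
      Function.update_of_ne (show j ≠ k by omega), Function.update_of_ne (show j ≠ k + 1 by omega),
      Function.update_of_ne (show j ≠ k + 2 by omega),
      Function.update_of_ne (show j ≠ k + 3 by omega),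
      Function.update_of_ne (show j ≠ k + 4 by omega),
      Function.update_of_ne (show j ≠ k + 5 by omega),
      Function.update_of_ne (show j ≠ k + 6 by omega),
      Function.update_of_ne (show j ≠ k + 7 by omega),
      Function.update_of_ne (show j ≠ k + 8 by omega)]

theorem det_orn (k : ℕ) : ∃ f : (ℕ → Bool) → ℕ → Bool, Det (orn k) f ∧
    ∀ x, f x k = (x k || !x (k + 9)) ∧ ∀ j, j < k ∨ k + 9 ≤ j → f x j = x j := by
  refine ⟨_, (((((((((((((det_cpr k).append (det_cpr (k + 1))).append (det_cpr (k + 2))).append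
    (det_nnd k)).append (det_cpl (k + 8))).append (det_cpl (k + 7))).append
    (det_cpl (k + 6))).append (det_nnd (k + 3))).append
    (det_cpl (k + 5))).append (det_cpl (k + 4))).append (det_cpl (k + 3))).append
    (det_cpl (k + 2))).append (det_cpl (k + 1))).append (det_cpl k), ?_⟩
  intro x
  constructor
  · simp [nndF, Nat.add_assoc]
  · intro j hj
    simp only [nndF_of_ne _ _ (show j ≤ k ∨ k + 3 < j by omega),
      nndF_of_ne _ _ (show j ≤ k + 3 ∨ k + 3 + 3 < j by omega),
      Function.update_of_ne (show j ≠ k by omega), Function.update_of_ne (show j ≠ k + 1 by omega),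
      Function.update_of_ne (show j ≠ k + 2 by omega),
      Function.update_of_ne (show j ≠ k + 3 by omega),
      Function.update_of_ne (show j ≠ k + 4 by omega),
      Function.update_of_ne (show j ≠ k + 5 by omega),
      Function.update_of_ne (show j ≠ k + 6 by omega),
      Function.update_of_ne (show j ≠ k + 7 by omega),
      Function.update_of_ne (show j ≠ k + 8 by omega)]

theorem run_ast (k : ℕ) : ∃ f : (ℕ → Bool) → ℕ → Bool,
    (∀ x y, Run (ast k) x y ↔ x k = true ∧ y = f x) ∧
    ∀ x j, j ≤ k ∨ k + 3 < j → f x j = x j := by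
  have h := (((det_cpr k).append (det_cpr (k + 1))).append (det_cpr (k + 2))).append (det_nnd k)
  refine ⟨fun x => nndF k (Function.update (Function.update (Function.update x (k + 1) (x k))
    (k + 1 + 1) (Function.update x (k + 1) (x k) (k + 1))) (k + 2 + 1)
      (Function.update (Function.update x (k + 1) (x k)) (k + 1 + 1)
        (Function.update x (k + 1) (x k) (k + 1)) (k + 2))), fun x y => ?_, fun x j hj => ?_⟩
  · unfold ast
    rw [run_append]
    constructor
    · rintro ⟨z, h1, h2⟩
      rw [h] at h1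
      simp only [Run, Stp] at h2
      obtain ⟨z', ⟨rfl, h3⟩, rfl⟩ := h2
      subst h1
      refine ⟨?_, rfl⟩
      simp [nndF, Nat.add_assoc] at h3
      exact h3
    · rintro ⟨h1, rfl⟩
      refine ⟨_, (h _ _).2 rfl, ?_⟩
      simp only [Run, Stp]
      refine ⟨_, ⟨rfl, ?_⟩, rfl⟩
      simp [nndF, Nat.add_assoc, h1]
  · beta_reduce
    rw [nndF_of_ne _ _ (by omega), Function.update_of_ne (by omega),
      Function.update_of_ne (by omega), Function.update_of_ne (by omega)]

theorem sl_macro : M_macro :=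
  ⟨fun k x y => det_rst k x y, det_swp, det_orp, det_orn, run_ast⟩

end Pool.Agent.Helper99.SC
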