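import Pool.Agent.Helper99.SC.Basic

/-!
# Module SC5c: the tripod lemma at the first vertex of an edge
-/

set_option autoImplicit false

namespace Pool.Agent.Helper99.SC

open Relation

namespace Drawing

variable {V : Type} {T : Drawing V}

theorem Ring.cmod {n : ℕ} {c : ℕ → V} (h : T.Ring n c) (i : ℕ) : c (i % n) = c i := by
  have key : ∀ k i, c (i + n * k) = c i := by
    intro k
    induction k with
    | zero => intro i; simp
    | succ k ih => intro i; rw [Nat.mul_succ, ← add_assoc, h.per, ih]
  conv_rhs => rw [← Nat.mod_add_div i n]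
  rw [key]

theorem Ring.ne {n : ℕ} {c : ℕ → V} (h : T.Ring n c) {i j : ℕ} (h1 : i < j) (h2 : j < i + n) :
    c i ≠ c j := by
  intro he
  have hn : 0 < n := by omega
  rw [← h.cmod i, ← h.cmod j] at he
  have h3 := h.inj _ _ (Nat.mod_lt _ hn) (Nat.mod_lt _ hn) he
  have h4 := Nat.mod_add_div i n
  have h5 := Nat.mod_add_div j n
  have h6 : j - i = n * (j / n - i / n) := by
    rw [Nat.mul_sub]
    have := Nat.div_le_div_right (c := n) h1.le
    have := Nat.mul_le_mul_left n this
    omega
  rcases Nat.eq_zero_or_pos (j / n - i / n) with h7 | h7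
  · rw [h7] at h6; omega
  · have := Nat.mul_le_mul_left n h7
    omega

theorem IsWalk.head_of_vertex {u v : V} {l : List T.Dart} (h : T.IsWalk u v l) {d : T.Dart} {x : V}
    (hd : d ∈ l) (hx : T.base d = Sum.inl x) : ∃ l', l = d :: l' := by
  obtain ⟨l₁, l₂, rfl⟩ := List.append_of_mem hd
  rcases List.eq_nil_or_concat l₁ with rfl | ⟨l₁', e, rfl⟩
  · exact ⟨l₂, rfl⟩
  · obtain ⟨hl, h1, h2, h3⟩ := h
    rw [List.isChain_append] at h3
    obtain ⟨j, _, a2, _⟩ := h3.2.2 e (by simp) d (by simp)
    rw [hx] at a2
    exact absurd a2 (by simp)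

/-- at its start vertex a walk has exactly one dart -/
theorem IsWalk.cnt_start {u v : V} {l : List T.Dart} (h : T.IsWalk u v l) (huv : u ≠ v)
    {d₀ : T.Dart} {l' : List T.Dart} (hl : l = d₀ :: l') {d : T.Dart}
    (hd : T.base d = Sum.inl u) : T.cnt l d = 1 ↔ d = d₀ := by
  classical
  have hrev : T.rev d ∉ l := by
    intro hm
    have := h.vertex_of_cnt (x := u) (d := d)
    obtain ⟨hl0, h1, h2, h3⟩ := id h
    obtain ⟨l₁, l₂, he⟩ := List.append_of_mem hm
    cases l₂ with
    | nil =>
      subst he
      simp at h2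
      rw [T.rev_rev, hd] at h2
      exact huv (Sum.inl.inj h2)
    | cons e l₂ =>
      rw [he, List.isChain_append, List.isChain_cons_cons] at h3
      obtain ⟨j, a1, _⟩ := h3.2.1.1
      rw [T.rev_rev, hd] at a1
      exact absurd a1 (by simp)
  have hnot : d ∉ l' := by
    intro hm
    obtain ⟨l₁, l₂, he⟩ := List.append_of_mem hm
    obtain ⟨hl0, h1, h2, h3⟩ := id h
    have hl2 : l = (d₀ :: l₁) ++ d :: l₂ := by rw [hl, he]; rfl
    rw [hl2, List.isChain_append] at h3
    obtain ⟨e, he'⟩ : ∃ e, (d₀ :: l₁).getLast? = some e := by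
      rw [List.getLast?_eq_getLast_of_ne_nil (by simp)]
      exact ⟨_, rfl⟩
    obtain ⟨j, _, a2, _⟩ := h3.2.2 e (by rw [he']; simp) d (by simp)
    rw [hd] at a2
    exact absurd a2 (by simp)
  unfold cnt
  rw [List.count_eq_zero_of_not_mem hrev, hl, List.count_cons, List.count_eq_zero_of_not_mem hnot]
  by_cases hdd : d = d₀
  · subst hdd; simp
  · simp [hdd, Ne.symm hdd]

theorem ne_of_cnt_walk {n : ℕ} {c : ℕ → V} {w : ℕ → List T.Dart} (h : T.Sys n c w) {k k' : ℕ}
    (hk1 : c k ≠ c k') (hk2 : c k ≠ c (k' + 1)) (hk3 : c (k + 1) ≠ c k')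
    (hk4 : c (k + 1) ≠ c (k' + 1)) (hk : c k ≠ c (k + 1)) {j : T.J}
    (h1 : T.stem j ∈ w k ∨ T.rev (T.stem j) ∈ w k)
    (h2 : T.stem j ∈ w k' ∨ T.rev (T.stem j) ∈ w k') : False := by
  have hon : ∀ f, f ∈ w k → T.On (c k) (c (k + 1)) f := fun f hf => (h.walk k).on hf
  have hon' : ∀ f, f ∈ w k' → T.On (c k') (c (k' + 1)) f := fun f hf => (h.walk k').on hf
  have key : ∀ f, f ∈ w k → ¬ (f ∈ w k' ∨ T.rev f ∈ w k') := by
    rintro f hf (hf' | hf')
    · rcases h.share k' _ _ f hk (hon' f hf') (hon f hf) with h3 | h3 | h3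
      · exact hk1 h3
      · exact hk4 h3
      · exact hk2 h3.1
    · have h4 : T.On (c (k' + 1)) (c k') f := by
        have := hon' _ hf'
        rwa [T.on_rev] at this
      rcases h.share' k' hk h4 (hon f hf) with h3 | h3 | h3
      · exact hk2 h3
      · exact hk3 h3
      · exact hk1 h3.1
  rcases h1 with h1 | h1
  · exact key _ h1 h2
  · refine key _ h1 ?_
    rw [T.rev_rev]
    exact h2.symm

/-- between two consecutive darts of a chain meeting at `j` one finds the stem -/
theorem stem_pair {l₁ l₂ : List T.Dart} {f g : T.Dart}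
    (h : (l₁ ++ f :: g :: l₂).IsChain T.Smooth) {j : T.J} (hj : T.base g = Sum.inr j) :
    ∃ s, (s = f ∨ s = g) ∧ (s = T.stem j ∨ T.rev s = T.stem j) := by
  rw [List.isChain_append, List.isChain_cons_cons] at h
  rcases h.2.1.1.stem hj with h1 | h1
  · exact ⟨f, Or.inl rfl, Or.inr h1⟩
  · exact ⟨g, Or.inr rfl, Or.inl h1⟩

theorem stem_mem_iff {l : List T.Dart} {s : T.Dart} {j : T.J}
    (hs : s = T.stem j ∨ T.rev s = T.stem j) (h : T.stem j ∈ l ∨ T.rev (T.stem j) ∈ l) :
    s ∈ l ∨ T.rev s ∈ l := by
  rcases hs with rfl | hs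
  · exact h
  · rw [← hs, T.rev_rev] at h
    exact h.symm

open Classical in
theorem tot_eqT (f : T.Dart → ZMod 2) (p : V ⊕ T.J) [Fintype T.Dart] :
    T.tot f p = ∑ d, if T.base d = p then f d else 0 := by
  unfold tot
  rw [finsum_eq_sum_of_fintype]
  refine Finset.sum_congr rfl fun d _ => ?_
  rw [finsum_eq_if]

open Classical in
theorem tot_add_single (f : T.Dart → ZMod 2) (m : T.Dart) (p : V ⊕ T.J) :
    T.tot (fun d => f d + if d = m then 1 else 0) p =
      T.tot f p + if T.base m = p then 1 else 0 := by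
  have := T.finDart
  have := Fintype.ofFinite T.Dart
  rw [tot_eqT, tot_eqT]
  have h1 : ∀ d, (if T.base d = p then (f d + if d = m then (1 : ZMod 2) else 0) else 0) =
      (if T.base d = p then f d else 0) + (if d = m then (if T.base m = p then 1 else 0) else 0) := by
    intro d
    by_cases h2 : d = m
    · subst h2
      by_cases h3 : T.base d = p <;> simp [h3]
    · simp [h2]
  rw [Finset.sum_congr rfl fun d _ => h1 d, Finset.sum_add_distrib]
  simp

end Drawing

open Drawing

open Classical in
theorem sc_tri (ht : M_tripod) (hp : M_par) : M_tri := by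
  intro V T n c w hS p q hpq hqp l hl m hm hCD χ₁ χ₂ hχ₁ hχ₂ dA dB hdA hdB
  obtain ⟨l₁, l₂, hsplit⟩ := List.append_of_mem hm
  have hchain : (l₁ ++ m :: l₂).IsChain T.Smooth := by
    obtain ⟨_, _, _, h3⟩ := hl
    rwa [hsplit] at h3
  have hcn : c (p + n) = c p := hS.per p
  have hlast : p + n - 1 + 1 = p + n := by omega
  -- different vertices
  have hne : ∀ i j, i < j → j < i + n → c i ≠ c j := fun i j h1 h2 => hS.toRing.ne h1 h2
  have hsA : c p ≠ c (p + 1) := hne _ _ (by omega) (by omega)
  have hsB : c p ≠ c (p + n - 1) := hne _ _ (by omega) (by omega)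
  have hAB : c (p + 1) ≠ c (p + n - 1) := hne _ _ (by omega) (by omega)
  have hpqn : c p ≠ c q := hne _ _ (by omega) (by omega)
  have hAq : c (p + 1) ≠ c q := hne _ _ (by omega) (by omega)
  have hBq : c q ≠ c (p + n - 1) := hne _ _ (by omega) (by omega)
  have hwB : T.IsWalk (c (p + n - 1)) (c p) (w (p + n - 1)) := by
    have := hS.walk (p + n - 1)
    rwa [hlast, hcn] at this
  have hwA := hS.walk p
  -- the head of `l`
  obtain ⟨w₀, lt, hw₀⟩ : ∃ w₀ lt, l = w₀ :: lt := by
    cases l with
    | nil => simp at hm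
    | cons a l => exact ⟨a, l, rfl⟩
  obtain ⟨a₀, at', ha₀⟩ : ∃ a₀ lt, w p = a₀ :: lt := by
    obtain ⟨h1, _⟩ := hwA
    cases hh : w p with
    | nil => exact absurd hh h1
    | cons a l => exact ⟨a, l, rfl⟩
  have hwB' := hwB.reverse
  obtain ⟨b₀, bt, hb₀⟩ : ∃ a₀ lt, (w (p + n - 1)).reverse.map T.rev = a₀ :: lt := by
    obtain ⟨h1, _⟩ := hwB'
    cases hh : (w (p + n - 1)).reverse.map T.rev with
    | nil => exact absurd hh h1
    | cons a l => exact ⟨a, l, rfl⟩
  have hbase_w₀ : T.base w₀ = Sum.inl (c p) := by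
    obtain ⟨h1, h2, _⟩ := hl
    subst hw₀
    simpa using h2
  have hbase_a₀ : T.base a₀ = Sum.inl (c p) := by
    obtain ⟨h1, h2, _⟩ := hwA
    simpa [ha₀] using h2
  have hbase_b₀ : T.base b₀ = Sum.inl (c p) := by
    obtain ⟨h1, h2, _⟩ := hwB'
    simpa [hb₀] using h2
  -- the chain `w'`
  set w' : T.Dart → ZMod 2 := fun d => T.cnt l₁ d + if d = m then 1 else 0 with hw'
  have hrevm : T.rev m ≠ m := T.rev_ne m
  have hz1 : ∀ z : ZMod 2, z ≠ 0 → z = 1 := by decide
  -- l₁ darts: facts
  have hl₁_succ : ∀ x ∈ l₁, ∃ j, T.base (T.rev x) = Sum.inr j := by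
    intro x hx
    obtain ⟨k₁, k₂, rfl⟩ := List.append_of_mem hx
    rw [List.append_assoc, List.cons_append] at hchain
    rw [List.isChain_append] at hchain
    have h1 := hchain.2.1
    cases k₂ with
    | nil =>
      simp only [List.nil_append] at h1
      rw [List.isChain_cons_cons] at h1
      obtain ⟨j, a1, _⟩ := h1.1
      exact ⟨j, a1⟩
    | cons y k₂ =>
      simp only [List.cons_append] at h1
      rw [List.isChain_cons_cons] at h1
      obtain ⟨j, a1, _⟩ := h1.1
      exact ⟨j, a1⟩
  have hcnt_split : ∀ e, T.cnt l e = T.cnt l₁ e + (if e = m then 1 else 0) +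
      (if T.rev e = m then 1 else 0) + T.cnt l₂ e := by
    intro e
    unfold cnt
    rw [hsplit, List.count_append, List.count_cons, List.count_append, List.count_cons]
    by_cases h1 : e = m
    · subst h1
      simp [T.rev_ne, Ne.symm (T.rev_ne _)]
      ring
    · by_cases h2 : T.rev e = m
      · subst h2
        simp [T.rev_ne, Ne.symm (T.rev_ne _)]
        ring
      · simp [h1, h2, Ne.symm h1, Ne.symm h2]
        ring
  -- at the vertex `c p`
  have hw'_vertex : ∀ d v, T.base d = Sum.inl v → w' d ≠ 0 → v = c p ∧ d = w₀ := by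
    intro d v hd hne0
    have h1 : d ∈ l₁ ∨ T.rev d ∈ l₁ ∨ d = m := by
      by_contra hc
      push Not at hc
      apply hne0
      have : T.cnt l₁ d = 0 := by
        by_contra h0
        rcases T.mem_of_cnt h0 with h | h
        · exact hc.1 h
        · exact hc.2.1 h
      simp [hw', this, hc.2.2]
    have h2 : d ∈ l := by
      rcases h1 with h1 | h1 | h1
      · rw [hsplit]; exact List.mem_append_left _ h1
      · obtain ⟨j, hj⟩ := hl₁_succ _ h1
        rw [T.rev_rev, hd] at hj
        exact absurd hj (by simp)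
      · rw [h1]; exact hm
    obtain ⟨l', hl'⟩ := hl.head_of_vertex h2 hd
    have : d = w₀ := by
      rw [hw₀] at hl'
      exact (List.cons.inj hl').1.symm
    subst this
    rw [hbase_w₀] at hd
    exact ⟨(Sum.inl.inj hd).symm, rfl⟩
  have hw'_w₀ : w' w₀ = 1 := by
    by_cases h1 : l₁ = []
    · subst h1
      rw [List.nil_append, hw₀] at hsplit
      have : w₀ = m := (List.cons.inj hsplit).1
      simp [hw', this, cnt]
    · obtain ⟨x, l₁', rfl⟩ : ∃ x l', l₁ = x :: l' := by
        cases l₁ with
        | nil => exact absurd rfl h1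
        | cons x l' => exact ⟨x, l', rfl⟩
      rw [hw₀, List.cons_append] at hsplit
      obtain ⟨rfl, hsplit'⟩ := List.cons.inj hsplit
      have hm0 : w₀ ≠ m := by
        rintro rfl
        -- `m` has a predecessor
        rw [List.isChain_append] at hchain
        obtain ⟨e, he⟩ : ∃ e, (w₀ :: l₁').getLast? = some e := by
          rw [List.getLast?_eq_getLast_of_ne_nil (by simp)]
          exact ⟨_, rfl⟩
        obtain ⟨j, _, a2, _⟩ := hchain.2.2 e (by rw [he]; simp) w₀ (by simp)
        rw [hbase_w₀] at a2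
        exact absurd a2 (by simp)
      have hn1 : T.rev w₀ ∉ w₀ :: l₁' := by
        intro hh
        obtain ⟨j, hj⟩ := hl₁_succ _ hh
        rw [T.rev_rev, hbase_w₀] at hj
        exact absurd hj (by simp)
      have hn2 : w₀ ∉ l₁' := by
        intro hh
        obtain ⟨k₁, k₂, rfl⟩ := List.append_of_mem hh
        have hc2 : ((w₀ :: k₁) ++ (w₀ :: k₂ ++ m :: l₂)).IsChain T.Smooth := by
          simpa using hchain
        rw [List.isChain_append] at hc2
        obtain ⟨e, he⟩ : ∃ e, (w₀ :: k₁).getLast? = some e := by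
          rw [List.getLast?_eq_getLast_of_ne_nil (by simp)]
          exact ⟨_, rfl⟩
        obtain ⟨j, _, a2, _⟩ := hc2.2.2 e (by rw [he]; simp) w₀ (by simp)
        rw [hbase_w₀] at a2
        exact absurd a2 (by simp)
      simp only [hw', if_neg hm0, add_zero]
      unfold cnt
      rw [List.count_eq_zero_of_not_mem hn1, List.count_cons, List.count_eq_zero_of_not_mem hn2]
      simp
  -- pairs before and after `m`
  have hreach₁ := (T.chain_split hchain).1
  have hreach₂ := (T.chain_split hchain).2
  have hon : ∀ d ∈ l, T.On (c p) (c q) d := fun d hd => hl.on hd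
  -- (P2) an occurrence at the junction `j` after `m`
  have hafter : ∀ (j : T.J) (e : T.Dart), T.base e = Sum.inr j →
      (T.rev e = m ∨ e ∈ l₂ ∨ T.rev e ∈ l₂) →
      ∃ s ∈ m :: l₂, (s = T.stem j ∨ T.rev s = T.stem j) := by
    intro j e he hcase
    have hsucc : ∀ x ∈ m :: l₂, T.base (T.rev x) = Sum.inr j →
        ∃ s ∈ m :: l₂, (s = T.stem j ∨ T.rev s = T.stem j) := by
      intro x hx hxj
      obtain ⟨k₁, k₂, hk⟩ := List.append_of_mem hx
      cases k₂ with
      | nil =>
        exfalso
        obtain ⟨h1, h2, h3, h4⟩ := id hl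
        have h5 : l = (l₁ ++ k₁) ++ [x] := by rw [hsplit, hk, List.append_assoc]
        subst h5
        rw [List.getLast_append_singleton] at h3
        rw [h3] at hxj
        exact absurd hxj (by simp)
      | cons g k₂ =>
        have h5 : ((l₁ ++ k₁) ++ x :: g :: k₂).IsChain T.Smooth := by
          rw [List.append_assoc, ← hk]; exact hchain
        have hg : T.base g = Sum.inr j := by
          rw [List.isChain_append, List.isChain_cons_cons] at h5
          rw [← h5.2.1.1.base]; exact hxj
        obtain ⟨s, hs1, hs2⟩ := stem_pair h5 hg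
        refine ⟨s, ?_, hs2⟩
        rw [hk]
        rcases hs1 with rfl | rfl <;> simp
    rcases hcase with h1 | h1 | h1
    · refine hsucc m (by simp) ?_
      rw [← h1, T.rev_rev]; exact he
    · obtain ⟨k₁, k₂, hk⟩ := List.append_of_mem h1
      rcases List.eq_nil_or_concat k₁ with rfl | ⟨k₁', f, rfl⟩
      · -- predecessor is `m`
        refine hsucc m (by simp) ?_
        rw [hk, List.nil_append, List.isChain_append, List.isChain_cons_cons] at hchain
        rw [hchain.2.1.1.base]; exact he
      · refine hsucc f (by rw [hk]; simp) ?_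
        have h5 : ((l₁ ++ m :: k₁') ++ f :: e :: k₂).IsChain T.Smooth := by
          rw [hk] at hchain
          simpa using hchain
        rw [List.isChain_append, List.isChain_cons_cons] at h5
        rw [h5.2.1.1.base]; exact he
    · refine hsucc (T.rev e) (by simp [h1]) ?_
      rw [T.rev_rev]; exact he
  -- (P1) an occurrence at the junction `j` before `m`
  have hbefore : ∀ (j : T.J) (e : T.Dart), T.base e = Sum.inr j → w' e ≠ 0 →
      ∃ s ∈ l₁ ++ [m], (s = T.stem j ∨ T.rev s = T.stem j) := by
    intro j e he hne0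
    have hpred : ∀ x ∈ l₁ ++ [m], T.base x = Sum.inr j →
        ∃ s ∈ l₁ ++ [m], (s = T.stem j ∨ T.rev s = T.stem j) := by
      intro x hx hxj
      obtain ⟨k₁, k₂, hk⟩ := List.append_of_mem hx
      rcases List.eq_nil_or_concat k₁ with rfl | ⟨k₁', f, rfl⟩
      · exfalso
        have h5 : l = x :: (k₂ ++ l₂) := by
          rw [hsplit]
          have : l₁ ++ m :: l₂ = (l₁ ++ [m]) ++ l₂ := by simp
          rw [this, hk]; rfl
        rw [hw₀] at h5
        have := (List.cons.inj h5).1
        subst this
        rw [hbase_w₀] at hxj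
        exact absurd hxj (by simp)
      · have h5 : (k₁' ++ f :: x :: (k₂ ++ l₂)).IsChain T.Smooth := by
          have : l₁ ++ m :: l₂ = (l₁ ++ [m]) ++ l₂ := by simp
          rw [this, hk] at hchain
          simpa using hchain
        obtain ⟨s, hs1, hs2⟩ := stem_pair h5 hxj
        refine ⟨s, ?_, hs2⟩
        rw [hk]
        rcases hs1 with rfl | rfl <;> simp
    have h1 : e ∈ l₁ ∨ T.rev e ∈ l₁ ∨ e = m := by
      by_contra hc
      push Not at hc
      apply hne0
      have : T.cnt l₁ e = 0 := by
        by_contra h0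
        rcases T.mem_of_cnt h0 with h | h
        · exact hc.1 h
        · exact hc.2.1 h
      simp [hw', this, hc.2.2]
    rcases h1 with h1 | h1 | h1
    · exact hpred e (by simp [h1]) he
    · -- successor of `rev e`
      obtain ⟨k₁, k₂, hk⟩ := List.append_of_mem h1
      obtain ⟨g, k₃, hg⟩ : ∃ g k₃, k₂ ++ [m] = g :: k₃ := by
        cases k₂ with
        | nil => exact ⟨m, [], rfl⟩
        | cons g k₂ => exact ⟨g, k₂ ++ [m], rfl⟩
      refine hpred g ?_ ?_
      · rw [hk, List.append_assoc, List.cons_append, hg]; simp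
      · have h5 : (k₁ ++ T.rev e :: g :: (k₃ ++ l₂)).IsChain T.Smooth := by
          have h6 : l₁ ++ m :: l₂ = k₁ ++ T.rev e :: ((k₂ ++ [m]) ++ l₂) := by rw [hk]; simp
          rw [h6, hg] at hchain
          simpa using hchain
        rw [List.isChain_append, List.isChain_cons_cons] at h5
        rw [← h5.2.1.1.base, T.rev_rev]; exact he
    · exact hpred e (by simp [h1]) he
  have hmem_before : ∀ s ∈ l₁ ++ [m], s ∈ l ∧ ReflTransGen T.Smooth s m := by
    intro s hs
    rw [List.mem_append, List.mem_singleton] at hs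
    rcases hs with hs | rfl
    · exact ⟨by rw [hsplit]; exact List.mem_append_left _ hs, hreach₁ s hs⟩
    · exact ⟨hm, ReflTransGen.refl⟩
  have hmem_after : ∀ s ∈ m :: l₂, s ∈ l ∧ ReflTransGen T.Smooth m s := by
    intro s hs
    exact ⟨by rw [hsplit]; exact List.mem_append_right _ hs, hreach₂ s hs⟩
  -- counts of `l` and `w'` at points of the walks at `c p`
  have hcntl : ∀ e, ¬ (T.rev e = m ∨ e ∈ l₂ ∨ T.rev e ∈ l₂) → T.cnt l e = w' e := by
    intro e hc
    push Not at hc
    rw [hcnt_split, if_neg hc.1]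
    have : T.cnt l₂ e = 0 := by
      by_contra h0
      rcases T.mem_of_cnt h0 with h | h
      · exact hc.2.1 h
      · exact hc.2.2 h
    rw [this]
    simp [hw']
  have hcntl_vertex : ∀ e, T.base e = Sum.inl (c p) → T.cnt l e = w' e := by
    intro e he
    have h1 := hl.cnt_start hpqn hw₀ he
    by_cases h2 : e = w₀
    · rw [h1.2 h2, h2, hw'_w₀]
    · have h3 : T.cnt l e = 0 := by
        by_contra h0
        exact h2 (h1.1 (hz1 _ h0))
      rw [h3]
      by_contra h0
      exact h2 (hw'_vertex e _ he (Ne.symm h0)).2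
  have hcntl_A : ∀ (j : T.J) e, T.base e = Sum.inr j →
      (T.stem j ∈ w p ∨ T.rev (T.stem j) ∈ w p) → T.cnt l e = w' e := by
    intro j e he hst
    apply hcntl
    intro hc
    obtain ⟨s, hs1, hs2⟩ := hafter j e he hc
    obtain ⟨hsl, hsm⟩ := hmem_after s hs1
    rcases stem_mem_iff hs2 hst with h1 | h1
    · refine hCD ⟨p, Or.inl ⟨(hon m hm).1, ((hwA.on h1).2).trans hsm⟩⟩
    · have h2 : T.On (c (p + 1)) (c p) s := by
        have := hwA.on h1
        rwa [T.on_rev] at this
      rcases hS.share' p hpqn h2 (hon s hsl) with h3 | h3 | h3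
      · exact hsA h3
      · exact hpqn h3.symm
      · exact hAq h3.2.symm
  have hcntl_B : ∀ (j : T.J) e, T.base e = Sum.inr j →
      (T.stem j ∈ w (p + n - 1) ∨ T.rev (T.stem j) ∈ w (p + n - 1)) → T.cnt l e = w' e := by
    intro j e he hst
    apply hcntl
    intro hc
    obtain ⟨s, hs1, hs2⟩ := hafter j e he hc
    obtain ⟨hsl, hsm⟩ := hmem_after s hs1
    rcases stem_mem_iff hs2 hst with h1 | h1
    · have h2 := (hS.walk (p + n - 1)).on h1
      rcases hS.share (p + n - 1) _ _ _ hpqn h2 (hon s hsl) with h3 | h3 | h3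
      · exact hsB h3
      · rw [hlast, hcn] at h3; exact hpqn h3.symm
      · exact hBq h3.2
    · have h2 : T.On (c (p + n - 1 + 1)) (c (p + n - 1)) s := by
        have := (hS.walk (p + n - 1)).on h1
        rwa [T.on_rev] at this
      refine hCD ⟨p + n - 1, Or.inr ⟨?_, h2.2.trans hsm⟩⟩
      rw [hlast, hcn]
      exact (hon m hm).1
  -- vertex values
  have hcnt_w_vertex : ∀ k i e, T.base e = Sum.inl (c i) → c i ≠ c k → c i ≠ c (k + 1) →
      T.cnt (w k) e = 0 := by
    intro k i e he h1 h2
    by_contra h0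
    rcases (hS.walk k).vertex_of_cnt h0 he with h3 | h3
    · exact h1 h3
    · exact h2 h3
  have hzmod : ∀ z : ZMod 2, z + z = 0 := by decide
  have key := ht V T (c p) (c (p + 1)) (c (p + n - 1)) (T.cnt (w p)) (T.cnt (w (p + n - 1))) w'
    (T.ych w l p q) (T.ych w l q (p + n)) χ₁ χ₂ m a₀ b₀ w₀ (χ₁ dB) (χ₂ dA) hsA hsB hAB
    hbase_a₀ hbase_b₀ hbase_w₀ (T.cnt_rev _) (T.cnt_rev _) ?_ ?_ ?_ ?_ ?_ ?_ ?_ ?_ ?_ ?_ ?_ ?_ ?_ ?_
    ?_ hχ₁ hχ₂ ?_ ?_ ?_ ?_ ?_
  · rw [key, add_comm (χ₁ dB)]
  · intro d h1 h2
    simp only [hw', if_neg h1, if_neg h2, T.cnt_rev]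
  · simp only [hw', if_neg hrevm, T.cnt_rev, if_true]
    rw [add_assoc, hzmod 1]
  · by_contra h0
    rcases T.mem_of_cnt h0 with h | h
    · exact hCD ⟨p, Or.inl (hwA.on h)⟩
    · refine hCD ⟨p, Or.inr ?_⟩
      have := hwA.on h
      rwa [T.on_rev] at this
  · by_contra h0
    rcases T.mem_of_cnt h0 with h | h
    · exact hCD ⟨p + n - 1, Or.inl ((hS.walk _).on h)⟩
    · refine hCD ⟨p + n - 1, Or.inr ?_⟩
      have := (hS.walk (p + n - 1)).on h
      rwa [T.on_rev] at this
  · intro j
    obtain ⟨h1, h2, h3, h4⟩ := id hwA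
    rw [hp V T _ h1 h4, h2, h3]
    simp
  · intro j
    obtain ⟨h1, h2, h3, h4⟩ := id hwB
    rw [hp V T _ h1 h4, h2, h3]
    simp
  · intro j
    rw [hw', tot_add_single]
    by_cases h1 : l₁ = []
    · have h2 : m = w₀ := by
        rw [h1, List.nil_append, hw₀] at hsplit
        exact (List.cons.inj hsplit).1.symm
      rw [h2, hbase_w₀, h1]
      have : T.tot (T.cnt []) (Sum.inr j) = 0 := by
        have h3 : T.cnt [] = fun _ => 0 := by funext d; simp [cnt]
        rw [h3]
        unfold tot
        simp
      rw [this]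
      simp
    · have hc1 : l₁.IsChain T.Smooth := by
        rw [List.isChain_append] at hchain
        exact hchain.1
      rw [hp V T _ h1 hc1]
      have h2 : T.base (l₁.head h1) = Sum.inl (c p) := by
        have h3 : l₁.head h1 = w₀ := by
          obtain ⟨x, l', rfl⟩ : ∃ x l', l₁ = x :: l' := by
            cases l₁ with
            | nil => exact absurd rfl h1
            | cons x l' => exact ⟨x, l', rfl⟩
          rw [hw₀, List.cons_append] at hsplit
          exact (List.cons.inj hsplit).1.symm
        rw [h3, hbase_w₀]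
      have h3 : T.base (T.rev (l₁.getLast h1)) = T.base m := by
        have h4 : T.Smooth (l₁.getLast h1) m := by
          rw [List.isChain_append] at hchain
          exact hchain.2.2 _ (by rw [List.getLast?_eq_getLast_of_ne_nil h1]; simp) m (by simp)
        exact h4.base
      rw [h2, h3]
      by_cases h4 : T.base m = Sum.inr j
      · rw [if_neg (by simp), if_pos h4.symm, if_pos h4]; decide
      · rw [if_neg (by simp), if_neg (Ne.symm h4), if_neg h4]; decide
  · intro d hd
    exact hwA.cnt_start hsA ha₀ hd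
  · intro d hd
    rw [← T.cnt_reverse]
    exact hwB'.cnt_start hsB hb₀ hd
  · intro d hd
    constructor
    · intro h1
      exact (hw'_vertex d _ hd (by rw [h1]; decide)).2
    · rintro rfl
      exact hw'_w₀
  · obtain ⟨h1, h2, h3, h4⟩ := id hwA
    rw [hp V T _ h1 h4, h2, h3]
    rw [if_neg (by rw [Sum.inl.injEq]; exact hsA.symm), if_pos rfl, zero_add]
  · obtain ⟨h1, h2, h3, h4⟩ := id hwB
    rw [hp V T _ h1 h4, h2, h3]
    rw [if_pos rfl, if_neg (by rw [Sum.inl.injEq]; exact hsB.symm), add_zero]
  · intro d v hd h1 h2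
    by_contra h0
    rcases hwA.vertex_of_cnt h0 hd with h3 | h3
    · exact h1 h3
    · exact h2 h3
  · intro d v hd h1 h2
    by_contra h0
    rcases hwB.vertex_of_cnt h0 hd with h3 | h3
    · exact h2 h3
    · exact h1 h3
  · intro d v hd h1
    by_contra h0
    exact h1 (hw'_vertex d v hd h0).1
  · -- points of `w p`
    intro d e hd hde
    unfold ych
    have hsum : ∑ k ∈ Finset.Ico q (p + n), T.cnt (w k) e = T.cnt (w (p + n - 1)) e := by
      refine Finset.sum_eq_single (p + n - 1) ?_ ?_
      · intro k hk hk'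
        rw [Finset.mem_Ico] at hk
        rcases hb : T.base d with v | j
        · rw [hb] at hde
          rcases hwA.vertex_of_cnt hd hb with h1 | h1
          · subst h1
            exact hcnt_w_vertex k p e hde (hne _ _ (by omega) (by omega))
              (hne _ _ (by omega) (by omega))
          · subst h1
            exact hcnt_w_vertex k (p + 1) e hde (hne _ _ (by omega) (by omega))
              (hne _ _ (by omega) (by omega))
        · rw [hb] at hde
          by_contra h0
          exact ne_of_cnt_walk hS (k := p) (k' := k) (hne _ _ (by omega) (by omega))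
            (hne _ _ (by omega) (by omega)) (hne _ _ (by omega) (by omega))
            (hne _ _ (by omega) (by omega)) hsA (hwA.stem_of_cnt hd hb)
            ((hS.walk k).stem_of_cnt h0 hde)
      · intro h1
        exact absurd (Finset.mem_Ico.2 ⟨by omega, by omega⟩) h1
    rw [hsum]
    congr 1
    rcases hb : T.base d with v | j
    · rw [hb] at hde
      rcases hwA.vertex_of_cnt hd hb with h1 | h1
      · subst h1
        exact hcntl_vertex e hde
      · subst h1
        have h2 : T.cnt l e = 0 := by
          by_contra h0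
          rcases hl.vertex_of_cnt h0 hde with h3 | h3
          · exact hsA h3.symm
          · exact hAq h3
        rw [h2]
        by_contra h0
        exact hsA (hw'_vertex e _ hde (Ne.symm h0)).1.symm
    · rw [hb] at hde
      exact hcntl_A j e hde (hwA.stem_of_cnt hd hb)
  · -- points of `w (p + n - 1)`
    intro d e hd hde
    unfold ych
    have hsum : ∑ k ∈ Finset.Ico p q, T.cnt (w k) e = T.cnt (w p) e := by
      refine Finset.sum_eq_single p ?_ ?_
      · intro k hk hk'
        rw [Finset.mem_Ico] at hk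
        rcases hb : T.base d with v | j
        · rw [hb] at hde
          rcases hwB.vertex_of_cnt hd hb with h1 | h1
          · subst h1
            exact hcnt_w_vertex k (p + n - 1) e hde (hne _ _ (by omega) (by omega)).symm
              (hne _ _ (by omega) (by omega)).symm
          · subst h1
            exact hcnt_w_vertex k p e hde (hne _ _ (by omega) (by omega))
              (hne _ _ (by omega) (by omega))
        · rw [hb] at hde
          by_contra h0
          refine ne_of_cnt_walk hS (k := k) (k' := p + n - 1) (hne _ _ (by omega) (by omega))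
            ?_ (hne _ _ (by omega) (by omega)) ?_ (hne _ _ (by omega) (by omega))
            ((hS.walk k).stem_of_cnt h0 hde) (hwB.stem_of_cnt hd hb)
          · rw [hlast, hcn]; exact (hne _ _ (by omega) (by omega)).symm
          · rw [hlast, hcn]; exact (hne _ _ (by omega) (by omega)).symm
      · intro h1
        exact absurd (Finset.mem_Ico.2 ⟨by omega, by omega⟩) h1
    rw [hsum]
    congr 1
    rcases hb : T.base d with v | j
    · rw [hb] at hde
      rcases hwB.vertex_of_cnt hd hb with h1 | h1
      · subst h1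
        have h2 : T.cnt l e = 0 := by
          by_contra h0
          rcases hl.vertex_of_cnt h0 hde with h3 | h3
          · exact hsB h3.symm
          · exact hBq h3.symm
        rw [h2]
        by_contra h0
        exact hsB (hw'_vertex e _ hde (Ne.symm h0)).1.symm
      · subst h1
        exact hcntl_vertex e hde
    · rw [hb] at hde
      exact hcntl_B j e hde (hwB.stem_of_cnt hd hb)
  · -- points of `l` before `m`
    intro d e hd hde
    unfold ych
    have h1 : (∑ k ∈ Finset.Ico p q, T.cnt (w k) e + T.cnt l e) +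
        (∑ k ∈ Finset.Ico q (p + n), T.cnt (w k) e + T.cnt l e) =
        ∑ k ∈ Finset.Ico p (p + n), T.cnt (w k) e := by
      rw [← Finset.sum_Ico_consecutive _ (show p ≤ q by omega) (show q ≤ p + n by omega)]
      have := hzmod (T.cnt l e)
      linear_combination this
    rw [h1]
    have h2 : ∀ k, p < k → k < p + n - 1 → T.cnt (w k) e = 0 := by
      intro k hk1 hk2
      rcases hb : T.base d with v | j
      · rw [hb] at hde
        obtain ⟨rfl, _⟩ := hw'_vertex d v hb hd
        exact hcnt_w_vertex k p e hde (hne _ _ (by omega) (by omega))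
          (hne _ _ (by omega) (by omega))
      · rw [hb] at hde
        by_contra h0
        obtain ⟨s, hs1, hs2⟩ := hbefore j d hb hd
        obtain ⟨hsl, hsm⟩ := hmem_before s hs1
        have hk3 : c p ≠ c k := hne _ _ (by omega) (by omega)
        have hk4 : c p ≠ c (k + 1) := hne _ _ (by omega) (by omega)
        rcases stem_mem_iff hs2 ((hS.walk k).stem_of_cnt h0 hde) with h3 | h3
        · have h4 := (hS.walk k).on h3
          rcases hS.share k _ _ _ hpqn h4 (hon s hsl) with h5 | h5 | h5
          · exact hk3 h5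
          · refine hCD ⟨k, Or.inl ⟨h4.1.trans hsm, ?_⟩⟩
            rw [← h5]
            exact (hon m hm).2
          · exact hk4 h5.1
        · have h4 : T.On (c (k + 1)) (c k) s := by
            have := (hS.walk k).on h3
            rwa [T.on_rev] at this
          rcases hS.share' k hpqn h4 (hon s hsl) with h5 | h5 | h5
          · exact hk4 h5
          · refine hCD ⟨k, Or.inr ⟨h4.1.trans hsm, ?_⟩⟩
            rw [← h5]
            exact (hon m hm).2
          · exact hk3 h5.1
    have h3 : Finset.Ico p (p + n) = insert p (insert (p + n - 1) (Finset.Ioo p (p + n - 1))) := by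
      ext k
      simp only [Finset.mem_Ico, Finset.mem_insert, Finset.mem_Ioo]
      omega
    rw [h3, Finset.sum_insert (by simp; omega), Finset.sum_insert (by simp)]
    rw [Finset.sum_eq_zero (fun k hk => by
      rw [Finset.mem_Ioo] at hk
      exact h2 k hk.1 hk.2), add_zero]
  · intro d hd
    refine T.pot_const hχ₂ ?_ hd hdA
    intro e he
    unfold ych
    rw [Finset.sum_eq_zero (fun k hk => by
      rw [Finset.mem_Ico] at hk
      by_cases hk' : k = p + n - 1
      · subst hk'
        refine hcnt_w_vertex _ (p + 1) e he hAB ?_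
        rw [hlast, hcn]
        exact hsA.symm
      · exact hcnt_w_vertex k (p + 1) e he (hne _ _ (by omega) (by omega))
          (hne _ _ (by omega) (by omega))), zero_add]
    by_contra h0
    rcases hl.vertex_of_cnt h0 he with h3 | h3
    · exact hsA h3.symm
    · exact hAq h3
  · intro d hd
    refine T.pot_const hχ₁ ?_ hd hdB
    intro e he
    unfold ych
    rw [Finset.sum_eq_zero (fun k hk => by
      rw [Finset.mem_Ico] at hk
      exact hcnt_w_vertex k (p + n - 1) e he (hne _ _ (by omega) (by omega)).symm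
          (hne _ _ (by omega) (by omega)).symm), zero_add]
    by_contra h0
    rcases hl.vertex_of_cnt h0 he with h3 | h3
    · exact hsB h3.symm
    · exact hBq h3.symm

end Pool.Agent.Helper99.SC
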