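import Pool.Agent.Helper99.SC.Final
import Pool.Agent.Helper99.SC.Tri
import Pool.Agent.Helper99.SC.Macro
import Pool.Agent.Helper41.SC.Flux
import Pool.Agent.Helper41.SC.Key
import Pool.Agent.Helper41.SC.Prog
import Pool.Agent.Helper9.SC.Par
import Pool.Agent.Helper9.SC.Pot
import Pool.Agent.Helper9.SC.GeoAsm
import Pool.Agent.Helper25.SC.Num
import Pool.Agent.Helper25.SC.Run
import Pool.Agent.Helper44.SC.Reach
import Pool.Agent.Helper45.SC.Tripod
import Pool.Agent.Helper46.SC.Bars
import Pool.Agent.Helper46.SC.Complete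
import Pool.Agent.Helper47.SC.CRR
import Pool.Agent.Helper52.SC.Rows
import Pool.Agent.Helper53.SC.Cnf
import Pool.Agent.Helper59.SC.CPD
import Pool.Agent.Helper68.SC.Ring
import Pool.Agent.Helper68.SC.Side
import Pool.Agent.Helper75.SC.BipCov
import Pool.Agent.Helper81.SC.LocT
import Pool.Agent.Helper82.SC.CY
import Pool.Agent.Helper88.SC.Pre
import Pool.Agent.Helper88.SC.Word
import Pool.Agent.Helper88.SC.Inj
import Pool.Agent.Helper91.SC.NetD
import Pool.Agent.Helper94.SC.Sound
import Pool.Agent.Helper97.SC.GPoly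

/-!
# The main theorem
-/

set_option autoImplicit false

namespace Pool.Agent.Helper99.SC

open Pool.Agent.Helper20.Flip

theorem m_flux : M_flux := FluxProof.sc_flux

theorem m_par : M_par := Pool.Agent.Helper9.SC.sc_par

theorem m_pot : M_pot := Pool.Agent.Helper9.SC.sc_pot m_flux m_par

theorem m_tri : M_tri := sc_tri sc_tripod m_par

theorem m_key : M_key :=
  KeyProof.sc_key m_pot Pool.Agent.Helper68.SC.Side.sc_side Pool.Agent.Helper68.SC.Side.sc_half m_tri

theorem m_sound : M_sound := Sound.sc_sound m_pot Pool.Agent.Helper68.SC.Ring.sc_ring m_key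

theorem m_net : M_net := Pool.Agent.Helper91.SCNet.sc_net (Pool.Agent.Helper88.SC.sc_pre m_flux)

theorem m_prog : M_prog := ProgProof.sl_prog sl_macro

theorem m_bip : M_bip := BipCov.sg_bip

theorem m_cov : M_cov := BipCov.sg_cov

theorem m_rows : M_rows := Pool.Agent.Helper52.SC.sg_rows Pool.Agent.Helper52.SC.sg_bits

theorem m_complete : M_complete := sc_complete m_net sc_bars Pool.Agent.Helper44.SC.sc_reach

theorem main_of (hP : M_cP) (hD : M_cD) : NPHard SCONF :=
  hard_of_modules m_sound m_complete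
    (Pool.Agent.Helper9.SC.sg_geo sg_num m_bip CRR.sg_cRR CY.sg_cY
      Pool.Agent.Helper81.SC.LocT.sg_cT hP hD m_cov
      m_rows sg_run) m_prog sl_cnf
    (Pool.Agent.Helper88.SC.sl_word sg_num m_bip) sl_poly Pool.Agent.Helper88.SC.sl_inj

theorem main : NPHard SCONF := main_of CPD.sg_cP CPD.sg_cD

end Pool.Agent.Helper99.SC
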