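import Pool.Agent.Helper99.SC.Defs

/-!
# Statements of the topological modules (recognition of strongly confluent graphs)
-/

set_option autoImplicit false

namespace Pool.Agent.Helper99.SC

open Equiv

/-! ### The combinatorial side of the interface -/

/-- The chords `ab` and `cd` of a circle with points `0, 1, 2, …` cross. -/
def Cross (a b c d : ℕ) : Prop :=
  (min a b < c ∧ c < max a b ∧ (d < min a b ∨ max a b < d)) ∨
  (min a b < d ∧ d < max a b ∧ (c < min a b ∨ max a b < c))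

/-- If `s → t` and `s' → t'` are in the page and cross, then `s → t'` is in the page. -/
def SwapClosed (A : ℕ → ℕ → Prop) : Prop :=
  ∀ s t s' t', A s t → A s' t' → Cross s t s' t' → A s t'

/-- `h` is the union of two swap-closed pages. -/
def TwoPage (h : ℕ → ℕ → Prop) : Prop :=
  ∃ A B : ℕ → ℕ → Prop, (∀ s t, h s t ↔ A s t ∨ B s t) ∧ SwapClosed A ∧ SwapClosed B

/-- `h` relates numbers below `Q` and no number is both a source and a target. -/
def Bip (Q : ℕ) (h : ℕ → ℕ → Prop) : Prop :=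
  (∀ a b, h a b → a < Q ∧ b < Q) ∧ ∀ a b c, h a b → ¬ h b c

/-- The cycle `0, 1, …, 4Q - 1` together with the edges between `4a + 2` and `4b + 2` for `h a b`. -/
def slotGraph (Q : ℕ) (h : ℕ → ℕ → Prop) : SimpleGraph (Fin (4 * Q)) :=
  SimpleGraph.fromRel fun i j =>
    (i.val + 1) % (4 * Q) = j.val ∨ ∃ a b, h a b ∧ i.val = 4 * a + 2 ∧ j.val = 4 * b + 2

/-! ### Planarity and potentials -/

/-- `χ` is a potential of `z`: `χ d` is the colour of the face to the left of the dart `d`. -/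
def IsPot {D : Type} (rot rev : Perm D) (z χ : D → ZMod 2) : Prop :=
  (∀ d, χ (rev d) = χ d + z d) ∧ ∀ d, χ (rot d) = χ d + z (rot d)

/-- Every element of the cycle space has a potential. -/
def Flux {D : Type} (rot rev : Perm D) : Prop :=
  ∀ z : D → ZMod 2, (∀ d, z (rev d) = z d) →
    (∃ g : D → ZMod 2, ∀ d, g (rot d) = g d + z (rot d)) → ∃ χ, IsPot rot rev z χ

/-- MODULE SC1. -/
def M_flux : Prop :=
  ∀ (D : Type) [Finite D] (rot rev : Perm D), (∀ d, rev (rev d) = d) → (∀ d, rev d ≠ d) →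
    (orb {rot} + orb {rot * rev} = orb {rev} + 2 * orb {rot, rev} ↔ Flux rot rev)

/-! ### Soundness -/

namespace Drawing

variable {V : Type} (T : Drawing V)

/-- `l` is a smooth walk from `u` to `v`. -/
def IsWalk (u v : V) (l : List T.Dart) : Prop :=
  ∃ h : l ≠ [], T.base (l.head h) = Sum.inl u ∧ T.base (T.rev (l.getLast h)) = Sum.inl v ∧
    l.IsChain T.Smooth

/-- the dart `d` is reached from `u` -/
def From (u : V) (d : T.Dart) : Prop :=
  ∃ d₀, T.base d₀ = Sum.inl u ∧ Relation.ReflTransGen T.Smooth d₀ d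

/-- from the dart `d` one reaches `v` -/
def To (d : T.Dart) (v : V) : Prop :=
  ∃ e, Relation.ReflTransGen T.Smooth d e ∧ T.base (T.rev e) = Sum.inl v

/-- the dart `d` is on a smooth walk from `u` to `v` -/
def On (u v : V) (d : T.Dart) : Prop := T.From u d ∧ T.To d v

open Classical in
/-- the number (modulo 2) of times the arc of `d` is used in `l` -/
noncomputable def cnt (l : List T.Dart) (d : T.Dart) : ZMod 2 :=
  (l.count d : ZMod 2) + (l.count (T.rev d) : ZMod 2)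

/-- sum over the darts at a point -/
noncomputable def tot (f : T.Dart → ZMod 2) (p : V ⊕ T.J) : ZMod 2 :=
  ∑ᶠ (d : T.Dart) (_ : T.base d = p), f d

/-- The vertices `c 0, …, c (n - 1)`, `c n = c 0` form a cycle whose edges are in no triangle and
no 4-cycle of the graph. -/
structure Ring (n : ℕ) (c : ℕ → V) : Prop where
  per : ∀ k, c (k + n) = c k
  inj : ∀ i j, i < n → j < n → c i = c j → i = j
  joins : ∀ k, T.Joins (c k) (c (k + 1))
  share : ∀ k x y d, x ≠ y → T.On (c k) (c (k + 1)) d → T.On x y d →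
    x = c k ∨ y = c (k + 1) ∨ (x = c (k + 1) ∧ y = c k)

/-- `d` is on a smooth walk between consecutive vertices of the cycle. -/
def CD (c : ℕ → V) (d : T.Dart) : Prop :=
  ∃ k, T.On (c k) (c (k + 1)) d ∨ T.On (c (k + 1)) (c k) d

end Drawing

open Classical in
/-- MODULE SC2 (chains of walks have potentials). -/
def M_pot : Prop :=
  ∀ (V : Type) (T : Drawing V) (ws : List (V × V × List T.Dart)),
    (∀ w ∈ ws, T.IsWalk w.1 w.2.1 w.2.2) →
    (∀ v, Even ((ws.map fun w => w.1).count v + (ws.map fun w => w.2.1).count v)) →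
    ∃ χ, IsPot T.rot T.rev (fun d => (ws.map fun w => T.cnt w.2.2 d).sum) χ

open Classical in
/-- MODULE SC3 (parity of a chain). -/
def M_par : Prop :=
  ∀ (V : Type) (T : Drawing V) (l : List T.Dart) (hl : l ≠ []), l.IsChain T.Smooth → ∀ p,
    T.tot (T.cnt l) p = (if p = T.base (l.head hl) then 1 else 0) +
      (if p = T.base (T.rev (l.getLast hl)) then 1 else 0)

/-- MODULE SC4 (tripod lemma). -/
def M_tripod : Prop :=
  ∀ (V : Type) (T : Drawing V) (s cA cB : V) (a b w y₁ y₂ χ₁ χ₂ : T.Dart → ZMod 2)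
    (m a₀ b₀ w₀ : T.Dart) (α β : ZMod 2),
    s ≠ cA → s ≠ cB → cA ≠ cB →
    T.base a₀ = Sum.inl s → T.base b₀ = Sum.inl s → T.base w₀ = Sum.inl s →
    -- `a`, `b` are chains from `s` to `cA`, `cB`; `w` is a chain from `s` ending with the dart `m`
    (∀ d, a (T.rev d) = a d) → (∀ d, b (T.rev d) = b d) →
    (∀ d, d ≠ m → T.rev d ≠ m → w (T.rev d) = w d) → w (T.rev m) = w m + 1 →
    a m = 0 → b m = 0 →
    (∀ j, T.tot a (Sum.inr j) = 0) → (∀ j, T.tot b (Sum.inr j) = 0) →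
    (∀ j, T.tot w (Sum.inr j) = 0) →
    (∀ d, T.base d = Sum.inl s → (a d = 1 ↔ d = a₀)) →
    (∀ d, T.base d = Sum.inl s → (b d = 1 ↔ d = b₀)) →
    (∀ d, T.base d = Sum.inl s → (w d = 1 ↔ d = w₀)) →
    T.tot a (Sum.inl cA) = 1 → T.tot b (Sum.inl cB) = 1 →
    (∀ d v, T.base d = Sum.inl v → v ≠ s → v ≠ cA → a d = 0) →
    (∀ d v, T.base d = Sum.inl v → v ≠ s → v ≠ cB → b d = 0) →
    (∀ d v, T.base d = Sum.inl v → v ≠ s → w d = 0) →
    -- potentials
    IsPot T.rot T.rev y₁ χ₁ → IsPot T.rot T.rev y₂ χ₂ →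
    (∀ d e, a d ≠ 0 → T.base e = T.base d → y₂ e = b e + w e) →
    (∀ d e, b d ≠ 0 → T.base e = T.base d → y₁ e = a e + w e) →
    (∀ d e, w d ≠ 0 → T.base e = T.base d → y₁ e + y₂ e = a e + b e) →
    (∀ d, T.base d = Sum.inl cA → χ₂ d = β) → (∀ d, T.base d = Sum.inl cB → χ₁ d = α) →
    χ₁ m + χ₂ m = α + β + 1

namespace Drawing

variable {V : Type} (T : Drawing V)

/-- a cycle with chosen smooth walks `w k` from `c k` to `c (k + 1)` -/
structure Sys (n : ℕ) (c : ℕ → V) (w : ℕ → List T.Dart) : Prop extends T.Ring n c where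
  walk : ∀ k, T.IsWalk (c k) (c (k + 1)) (w k)
  wper : ∀ k, w (k + n) = w k

/-- the chain of the walks `w p, …, w (q - 1)` and `l` -/
noncomputable def ych (w : ℕ → List T.Dart) (l : List T.Dart) (p q : ℕ) (d : T.Dart) : ZMod 2 :=
  ∑ k ∈ Finset.Ico p q, T.cnt (w k) d + T.cnt l d

end Drawing

/-- MODULE SC5a (a potential is constant on the side of the cycle which its chain avoids). -/
def M_side : Prop :=
  ∀ (V : Type) (T : Drawing V) (n : ℕ) (c : ℕ → V) (w : ℕ → List T.Dart), T.Sys n c w →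
    ∀ p q, p + 2 ≤ q → q + 2 ≤ p + n → ∀ l,
    (T.IsWalk (c p) (c q) l ∨ T.IsWalk (c q) (c p) l) →
    ∀ χ, IsPot T.rot T.rev (T.ych w l q (p + n)) χ →
    ∀ k k' d d', p < k → k < q → p < k' → k' < q →
      T.base d = Sum.inl (c k) → T.base d' = Sum.inl (c k') → χ d = χ d'

/-- MODULE SC5b (a potential is constant on the first part of a crossing edge). -/
def M_half : Prop :=
  ∀ (V : Type) (T : Drawing V) (n : ℕ) (c : ℕ → V) (w : ℕ → List T.Dart), T.Sys n c w →
    ∀ p q, p + 2 ≤ q → q + 2 ≤ p + n → ∀ l,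
    (T.IsWalk (c p) (c q) l ∨ T.IsWalk (c q) (c p) l) →
    ∀ χ, IsPot T.rot T.rev (T.ych w l q (p + n)) χ →
    ∀ x y l' m, p < x → x < q → q < y → y < p + n → T.IsWalk (c x) (c y) l' → m ∈ l' →
      ¬ T.CD c m → (∀ d ∈ l', d ∉ l ∧ T.rev d ∉ l) →
      T.ych w l q (p + n) m = 0 ∧ ∀ d, T.base d = Sum.inl (c x) → χ m = χ d

/-- MODULE SC5c (the tripod lemma at the first vertex of an edge). -/
def M_tri : Prop :=
  ∀ (V : Type) (T : Drawing V) (n : ℕ) (c : ℕ → V) (w : ℕ → List T.Dart), T.Sys n c w →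
    ∀ p q, p + 3 ≤ q → q + 3 ≤ p + n → ∀ l, T.IsWalk (c p) (c q) l → ∀ m ∈ l, ¬ T.CD c m →
    ∀ χ₁ χ₂, IsPot T.rot T.rev (T.ych w l p q) χ₁ →
    IsPot T.rot T.rev (T.ych w l q (p + n)) χ₂ →
    ∀ dA dB, T.base dA = Sum.inl (c (p + 1)) → T.base dB = Sum.inl (c (p + n - 1)) →
      χ₁ m + χ₂ m = χ₂ dA + χ₁ dB + 1

/-- MODULE SC5 (crossing edges drawn on the same side meet). -/
def M_key : Prop :=
  ∀ (V : Type) (T : Drawing V) (Q : ℕ) (c : ℕ → V) (w : ℕ → List T.Dart), T.Sys (4 * Q) c w →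
    ∀ χ, IsPot T.rot T.rev (fun d => ∑ k ∈ Finset.range (4 * Q), T.cnt (w k) d) χ →
    ∀ s t s' t', s < Q → t < Q → s' < Q → t' < Q → Cross s t s' t' →
    ∀ l l' m m', T.IsWalk (c (4 * s + 2)) (c (4 * t + 2)) l →
      T.IsWalk (c (4 * s' + 2)) (c (4 * t' + 2)) l' → m ∈ l → m' ∈ l' →
      ¬ T.CD c m → ¬ T.CD c m' → (∀ d ∈ l, d ∉ l' ∧ T.rev d ∉ l') → χ m ≠ χ m'

/-- MODULE SC6 (the cycle of the graph). -/
def M_ring : Prop :=
  ∀ (Q : ℕ) (h : ℕ → ℕ → Prop), 2 ≤ Q → Bip Q h → ∀ T : Drawing (Fin (4 * Q)),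
    (∀ u v, u ≠ v → ((slotGraph Q h).Adj u v ↔ T.Joins u v)) →
    ∀ hQ : 0 < 4 * Q, T.Ring (4 * Q) fun k => ⟨k % (4 * Q), Nat.mod_lt _ hQ⟩

/-- MODULE SC7 (soundness). -/
def M_sound : Prop :=
  ∀ (Q : ℕ) (h : ℕ → ℕ → Prop), Bip Q h → StronglyConfluent (slotGraph Q h) → TwoPage h

/-! ### Completeness -/

/-- Drawings in which some darts are unused and points of degree two are allowed. -/
structure Pre (V : Type) where
  D : Type
  finD : Finite D
  P : Type
  base : D → V ⊕ P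
  rev : Perm D
  rot : Perm D
  /-- the used darts -/
  U : D → Prop
  rev_rev : ∀ d, rev (rev d) = d
  rev_U : ∀ d, U d → U (rev d)
  rev_ne : ∀ d, U d → rev d ≠ d
  sameCycle : ∀ d e, rot.SameCycle d e ↔ base d = base e
  flux : ∀ z : D → ZMod 2, (∀ d, ¬ U d → z d = 0) → (∀ d, z (rev d) = z d) →
    (∃ g : D → ZMod 2, ∀ d, g (rot d) = g d + z (rot d)) → ∃ χ : D → ZMod 2,
      (∀ d, U d → χ (rev d) = χ d + z d) ∧ ∀ d, χ (rot d) = χ d + z (rot d)
  stem : P → D
  base_stem : ∀ p, base (stem p) = Sum.inr p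
  stem_U : ∀ d p, base d = Sum.inr p → U d → U (stem p)
  degree : ∀ p, Nat.card {d // base d = Sum.inr p ∧ U d} = 0 ∨
    Nat.card {d // base d = Sum.inr p ∧ U d} = 2 ∨ Nat.card {d // base d = Sum.inr p ∧ U d} = 3

namespace Pre

variable {V : Type} (X : Pre V)

def Smooth (d e : X.D) : Prop :=
  X.U d ∧ X.U e ∧ ∃ p, X.base (X.rev d) = Sum.inr p ∧ X.base e = Sum.inr p ∧ X.rev d ≠ e ∧
    (X.rev d = X.stem p ∨ e = X.stem p)

def Joins (u v : V) : Prop :=
  ∃ d e, X.U d ∧ X.base d = Sum.inl u ∧ Relation.ReflTransGen X.Smooth d e ∧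
    X.base (X.rev e) = Sum.inl v

end Pre

/-- MODULE SC8 (unused darts and points of degree two can be removed). -/
def M_pre : Prop :=
  ∀ (V : Type) (X : Pre V), ∃ T : Drawing V, ∀ u v, T.Joins u v ↔ X.Joins u v

/-- A network on a grid with columns `0, …, n - 1` and, on each of the two sides (`Bool`) of the
row of the vertices, rows `0, …, M - 1` of nodes. `ve b x y`: the vertical arc below the node
`(x, y)` of side `b` is present (it joins it to the node `(x, y - 1)`, or to the vertex `x` if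
`y = 0`). `he b x y`: the horizontal arc between the nodes `(x, y)` and `(x + 1, y)` is present.
The vertical arcs of column `x` are directed away from the vertices if `up b x`, the horizontal arcs
of row `y` are directed to the right if `east b y`. -/
structure Net where
  n : ℕ
  M : ℕ
  ve : Bool → ℕ → ℕ → Prop
  he : Bool → ℕ → ℕ → Prop
  up : Bool → ℕ → Prop
  east : Bool → ℕ → Prop
  ve_lt : ∀ b x y, ve b x y → x < n ∧ y < M
  he_lt : ∀ b x y, he b x y → x + 1 < n ∧ y < M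

/-- the arcs of a network: `inl (b, x, y)` is vertical, `inr (b, x, y)` is horizontal -/
abbrev NArc := (Bool × ℕ × ℕ) ⊕ (Bool × ℕ × ℕ)

namespace Net

variable (N : Net)

/-- the arc is present -/
def Has : NArc → Prop
  | .inl (b, x, y) => N.ve b x y
  | .inr (b, x, y) => N.he b x y

/-- the arc is an in-arc of the node `(b, x, y)` -/
def In (b : Bool) (x y : ℕ) (e : NArc) : Prop :=
  N.Has e ∧ ((N.up b x ∧ e = .inl (b, x, y)) ∨ (¬ N.up b x ∧ e = .inl (b, x, y + 1)) ∨
    (N.east b y ∧ ∃ x', x = x' + 1 ∧ e = .inr (b, x', y)) ∨ (¬ N.east b y ∧ e = .inr (b, x, y)))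

/-- the arc is an out-arc of the node `(b, x, y)` -/
def Out (b : Bool) (x y : ℕ) (e : NArc) : Prop :=
  N.Has e ∧ ((N.up b x ∧ e = .inl (b, x, y + 1)) ∨ (¬ N.up b x ∧ e = .inl (b, x, y)) ∨
    (N.east b y ∧ e = .inr (b, x, y)) ∨ (¬ N.east b y ∧ ∃ x', x = x' + 1 ∧ e = .inr (b, x', y)))

/-- every node with an in-arc has an out-arc and conversely -/
def Balanced : Prop := ∀ b x y, (∃ e, N.In b x y e) ↔ ∃ e, N.Out b x y e

/-- from an in-arc of a node one may continue on every out-arc -/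
def Step (e f : NArc) : Prop := ∃ b x y, N.In b x y e ∧ N.Out b x y f

/-- there is a directed path from the vertex `u` to the vertex `v` -/
def Reach (u v : ℕ) : Prop :=
  ∃ b, N.up b u ∧ N.ve b u 0 ∧ ¬ N.up b v ∧ N.ve b v 0 ∧
    Relation.ReflTransGen N.Step (.inl (b, u, 0)) (.inl (b, v, 0))

end Net

/-- MODULE SC9 (networks have drawings). -/
def M_net : Prop :=
  ∀ N : Net, N.Balanced → ∃ T : Drawing (Fin N.n), ∀ u v : Fin N.n,
    T.Joins u v ↔ (u.val + 1 = v.val ∨ v.val + 1 = u.val ∨ N.Reach u.val v.val ∨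
      N.Reach v.val u.val)

/-- The edges of a page, in an order in which the spans do not decrease. -/
structure Bars (A : ℕ → ℕ → Prop) (n M : ℕ) (src tgt : ℕ → ℕ) : Prop where
  iff : ∀ s t, A s t ↔ ∃ y < M, src y = s ∧ tgt y = t
  lt : ∀ y < M, src y < n ∧ tgt y < n
  inj : ∀ y < M, ∀ y' < M, src y = src y' → tgt y = tgt y' → y = y'
  mono : ∀ y y', y ≤ y' → y' < M →
    max (src y) (tgt y) - min (src y) (tgt y) ≤ max (src y') (tgt y') - min (src y') (tgt y')

/-- MODULE SC10 (sorting the edges of a page). -/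
def M_bars : Prop :=
  ∀ (n : ℕ) (A : ℕ → ℕ → Prop), (∀ s t, A s t → s < n ∧ t < n) →
    ∃ M src tgt, Bars A n M src tgt

/-- the network with one row for every edge of the two pages -/
def barNet (n : ℕ) (M : Bool → ℕ) (src tgt : Bool → ℕ → ℕ)
    (hlt : ∀ b, ∀ y < M b, src b y < n ∧ tgt b y < n) : Net where
  n := n
  M := M true + M false
  ve b x y := ∃ y', y ≤ y' ∧ y' < M b ∧ (src b y' = x ∨ tgt b y' = x)
  he b x y := y < M b ∧ min (src b y) (tgt b y) ≤ x ∧ x < max (src b y) (tgt b y)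
  up b x := ∃ y < M b, src b y = x
  east b y := src b y < tgt b y
  ve_lt := by
    rintro b x y ⟨y', h1, h2, h3⟩
    have := hlt b y' h2
    refine ⟨by omega, ?_⟩
    cases b <;> omega
  he_lt := by
    rintro b x y ⟨h1, h2, h3⟩
    have := hlt b y h1
    refine ⟨by omega, ?_⟩
    cases b <;> omega

/-- MODULE SC11 (paths in the network of swap-closed pages). -/
def M_reach : Prop :=
  ∀ (n : ℕ) (A : Bool → ℕ → ℕ → Prop) (M : Bool → ℕ) (src tgt : Bool → ℕ → ℕ)
    (hb : ∀ b, Bars (A b) n (M b) (src b) (tgt b)),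
    (∀ b, SwapClosed (A b)) → (∀ b x y z, A b x y → ¬ A b y z) →
    (barNet n M src tgt fun b => (hb b).lt).Balanced ∧
    ∀ s t, (barNet n M src tgt fun b => (hb b).lt).Reach s t ↔ ∃ b, A b s t

/-- MODULE SC12 (completeness). -/
def M_complete : Prop :=
  ∀ (Q : ℕ) (h : ℕ → ℕ → Prop), 0 < Q → Bip Q h → TwoPage h → StronglyConfluent (slotGraph Q h)

end Pool.Agent.Helper99.SC
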